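import Mathlib
import Pool.Agent.TH277.HT.C
set_option autoImplicit false
set_option linter.unusedSectionVars false

/-! The one dimensional extension operator on Hilbert space valued functions which live on a small
set: restricted estimates with the sharp dependence on the measure of the set. -/

namespace Pool.Agent.Q85.HL

open MeasureTheory Set Complex
open Pool.Agent.TH277.HT
open scoped ENNReal NNReal

variable {H : Type} [NormedAddCommGroup H] [InnerProductSpace ℂ H] [CompleteSpace H]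

attribute [local irreducible] PP W E1

/-- functions with values in the unit ball which vanish outside the set `S ⊆ [-1,1]` -/
structure AdmS (a : ℝ → H) (S : Set ℝ) : Prop where
  meas : StronglyMeasurable a
  bd : ∀ u, ‖a u‖ ≤ 1
  zero : ∀ u, u ∉ S → a u = 0
  mS : MeasurableSet S
  sub : S ⊆ Icc (-1 : ℝ) 1

lemma AdmS.adm {a : ℝ → H} {S : Set ℝ} (h : AdmS a S) : Adm a := ⟨h.meas, h.bd⟩

lemma AdmS.tr {a : ℝ → H} {S : Set ℝ} (h : AdmS a S) : tr a = a := by
  unfold Pool.Agent.TH277.HT.tr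
  ext u
  by_cases hu : u ∈ Icc (-1 : ℝ) 1
  · rw [indicator_of_mem hu]
  · rw [indicator_of_notMem hu, h.zero u (fun h2 => hu (h.sub h2))]

lemma AdmS.fin {a : ℝ → H} {S : Set ℝ} (h : AdmS a S) : volume S ≠ ⊤ := by
  refine ne_top_of_le_ne_top ?_ (measure_mono h.sub)
  rw [Real.volume_Icc]
  exact ENNReal.ofReal_ne_top

lemma AdmS.le_ind {a : ℝ → H} {S : Set ℝ} (h : AdmS a S) (u : ℝ) :
    ‖a u‖ₑ ≤ S.indicator (fun _ => (1 : ℝ≥0∞)) u := by
  by_cases hu : u ∈ S
  · rw [indicator_of_mem hu, ← ofReal_norm]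
    exact ENNReal.ofReal_le_one.2 (h.bd u)
  · rw [indicator_of_notMem hu, h.zero u hu, enorm_zero]

/-- the sup bound -/
lemma E1_le' {a : ℝ → H} {S : Set ℝ} (h : AdmS a S) (x t : ℝ) :
    ‖E1 a x t‖ₑ ≤ volume S := by
  rw [E1_eq, h.tr]
  calc ‖∫ u, ch (u * x + u ^ 2 * t) • a u‖ₑ ≤ ∫⁻ u, ‖ch (u * x + u ^ 2 * t) • a u‖ₑ :=
        enorm_integral_le_lintegral_enorm _
    _ ≤ ∫⁻ u, S.indicator (fun _ => (1 : ℝ≥0∞)) u := by
        apply lintegral_mono
        intro u
        simp only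
        rw [enorm_smul, ch_enorm, one_mul]
        exact h.le_ind u
    _ = volume S := by rw [lintegral_indicator h.mS, setLIntegral_one]

/-- Plancherel -/
lemma E1_planch' {a : ℝ → H} {S : Set ℝ} (h : AdmS a S) (t : ℝ) :
    ∫⁻ x : ℝ, ‖E1 a x t‖ₑ ^ 2 ≤ volume S := by
  have ha := h.adm
  set φ : ℝ → H := fun u => ch (u ^ 2 * t) • tr a u with hφ
  have hm : StronglyMeasurable φ := by
    apply StronglyMeasurable.smul
    · have h2 : Continuous fun u : ℝ => ch (u ^ 2 * t) := ch_cont.comp (by fun_prop)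
      exact h2.stronglyMeasurable
    · exact tr_meas ha
  have hn : ∀ u, ‖φ u‖ = ‖tr a u‖ := by
    intro u
    rw [hφ]
    simp only
    rw [norm_smul, ch_norm, one_mul]
  have hb : ∀ u, ‖φ u‖ ≤ 1 := fun u => by
    rw [hn u]
    exact tr_bd ha u
  have h0 : ∀ u, u ∉ Icc (-1 : ℝ) 1 → φ u = 0 := by
    intro u hu
    rw [hφ]
    simp only
    rw [tr_zero a hu, smul_zero]
  have h1 := planch1 φ (bdd_int hm 1 hb h0) (bdd_L2 hm 1 hb h0)
  have h2 : ∀ x, E1 a x t = ∫ u : ℝ, ch (u * x) • φ u := by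
    intro x
    rw [E1_eq]
    apply integral_congr_ae
    refine ae_of_all _ fun u => ?_
    simp only [hφ]
    rw [smul_smul, ← ch_add]
  simp only [h2]
  rw [h1]
  calc ∫⁻ u, ‖φ u‖ₑ ^ 2 ≤ ∫⁻ u, S.indicator (fun _ => 1) u := by
        apply lintegral_mono
        intro u
        simp only
        have h4 : ‖φ u‖ₑ = ‖a u‖ₑ := by
          rw [← ofReal_norm, hn u, h.tr, ofReal_norm]
        rw [h4]
        by_cases hu : u ∈ S
        · have h3 : ‖a u‖ₑ ≤ 1 := by
            have := h.le_ind u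
            rwa [indicator_of_mem hu] at this
          rw [indicator_of_mem hu]
          calc ‖a u‖ₑ ^ 2 ≤ 1 ^ 2 := by gcongr
            _ = 1 := one_pow 2
        · rw [h.zero u hu, enorm_zero]
          simp
    _ = volume S := by
        rw [lintegral_indicator h.mS, setLIntegral_one]

/-- the overlap `|S ∩ (S - α)|` -/
noncomputable def ov (S : Set ℝ) (α : ℝ) : ℝ≥0∞ :=
  ∫⁻ v, S.indicator (fun _ => (1 : ℝ≥0∞)) v * S.indicator (fun _ => (1 : ℝ≥0∞)) (v + α)

lemma ind_le_one (S : Set ℝ) (v : ℝ) : S.indicator (fun _ => (1 : ℝ≥0∞)) v ≤ 1 :=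
  indicator_le_self' (fun _ _ => zero_le) v

lemma ov_le {S : Set ℝ} (hS : MeasurableSet S) (α : ℝ) : ov S α ≤ volume S := by
  unfold ov
  calc ∫⁻ v, S.indicator (fun _ => (1 : ℝ≥0∞)) v * S.indicator (fun _ => (1 : ℝ≥0∞)) (v + α)
      ≤ ∫⁻ v, S.indicator (fun _ => (1 : ℝ≥0∞)) v := by
        apply lintegral_mono
        intro v
        simp only
        calc _ ≤ S.indicator (fun _ => (1 : ℝ≥0∞)) v * 1 := by
              gcongr
              exact ind_le_one _ _
          _ = _ := mul_one _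
    _ = volume S := by rw [lintegral_indicator hS, setLIntegral_one]

lemma ov_meas {S : Set ℝ} (hS : MeasurableSet S) : Measurable (ov S) := by
  unfold ov
  have h1 : Measurable fun p : ℝ × ℝ => S.indicator (fun _ => (1 : ℝ≥0∞)) p.2 *
      S.indicator (fun _ => (1 : ℝ≥0∞)) (p.2 + p.1) := by
    have hi : Measurable (S.indicator (fun _ => (1 : ℝ≥0∞))) := measurable_const.indicator hS
    exact (hi.comp measurable_snd).mul (hi.comp (measurable_snd.add measurable_fst))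
  exact h1.lintegral_prod_right'

lemma ov_int {S : Set ℝ} (hS : MeasurableSet S) : ∫⁻ α, ov S α = volume S * volume S := by
  unfold ov
  have hi : Measurable (S.indicator (fun _ => (1 : ℝ≥0∞))) := measurable_const.indicator hS
  have h1 : Measurable fun p : ℝ × ℝ => S.indicator (fun _ => (1 : ℝ≥0∞)) p.2 *
      S.indicator (fun _ => (1 : ℝ≥0∞)) (p.2 + p.1) :=
    (hi.comp measurable_snd).mul (hi.comp (measurable_snd.add measurable_fst))
  rw [lintegral_lintegral_swap (f := fun α v => S.indicator (fun _ => (1 : ℝ≥0∞)) v *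
      S.indicator (fun _ => (1 : ℝ≥0∞)) (v + α)) h1.aemeasurable]
  have h2 : ∀ v : ℝ, ∫⁻ α, S.indicator (fun _ => (1 : ℝ≥0∞)) v *
      S.indicator (fun _ => (1 : ℝ≥0∞)) (v + α) =
      S.indicator (fun _ => (1 : ℝ≥0∞)) v * volume S := by
    intro v
    have hv : Measurable fun α : ℝ => S.indicator (fun _ => (1 : ℝ≥0∞)) (v + α) :=
      hi.comp (measurable_const.add measurable_id)
    rw [lintegral_const_mul _ hv]
    congr 1
    rw [lintegral_add_left_eq_self (fun α => S.indicator (fun _ => (1 : ℝ≥0∞)) α) v,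
      lintegral_indicator hS, setLIntegral_one]
  simp only [h2]
  rw [lintegral_mul_const _ hi, lintegral_indicator hS, setLIntegral_one]

lemma ker_le' {a : ℝ → H} {S : Set ℝ} (h : AdmS a S) (v α : ℝ) :
    ‖ker a v (v + α)‖ₑ ≤ S.indicator (fun _ => (1 : ℝ≥0∞)) v *
      S.indicator (fun _ => (1 : ℝ≥0∞)) (v + α) := by
  unfold ker
  rw [h.tr]
  calc ‖inner ℂ (a v) (a (v + α))‖ₑ ≤ ‖a v‖ₑ * ‖a (v + α)‖ₑ := by
        rw [← ofReal_norm, ← ofReal_norm, ← ofReal_norm, ← ENNReal.ofReal_mul (norm_nonneg _)]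
        exact ENNReal.ofReal_le_ofReal (norm_inner_le_norm _ _)
    _ ≤ _ := mul_le_mul' (h.le_ind _) (h.le_ind _)

lemma W_le' {a : ℝ → H} {S : Set ℝ} (h : AdmS a S) (α τ : ℝ) : ‖W a α τ‖ₑ ≤ volume S := by
  refine le_trans ?_ (ov_le h.mS α)
  unfold W ov
  calc ‖∫ v, ch (v * τ) • ker a v (v + α)‖ₑ ≤ ∫⁻ v, ‖ch (v * τ) • ker a v (v + α)‖ₑ :=
        enorm_integral_le_lintegral_enorm _
    _ ≤ _ := by
        apply lintegral_mono
        intro v
        simp only
        rw [enorm_smul, ch_enorm, one_mul]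
        exact ker_le' h v α

lemma W_planch' {a : ℝ → H} {S : Set ℝ} (h : AdmS a S) (α : ℝ) :
    ∫⁻ τ : ℝ, ‖W a α τ‖ₑ ^ 2 ≤ ov S α := by
  have ha := h.adm
  unfold W
  rw [planch1 _ (int_of_supp (kerv_meas ha α) 1 1 (fun v => ker_le ha _ _) (kerv_zero α))
    (L2_of_supp (kerv_meas ha α) 1 1 (fun v => ker_le ha _ _) (kerv_zero α))]
  unfold ov
  apply lintegral_mono
  intro v
  simp only
  have h1 := ker_le' h v α
  have h2 : ‖ker a v (v + α)‖ₑ ≤ 1 := by
    rw [← ofReal_norm]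
    exact ENNReal.ofReal_le_one.2 (ker_le ha _ _)
  calc ‖ker a v (v + α)‖ₑ ^ 2 = ‖ker a v (v + α)‖ₑ * ‖ker a v (v + α)‖ₑ := sq _
    _ ≤ _ * 1 := mul_le_mul' h1 h2
    _ = _ := mul_one _

lemma PP_le' {a : ℝ → H} {S : Set ℝ} (h : AdmS a S) (α t : ℝ) : ‖PP a α t‖ₑ ≤ volume S := by
  rw [← ofReal_norm, PP_norm, ofReal_norm]
  exact W_le' h _ _

lemma PP_time' {a : ℝ → H} {S : Set ℝ} (h : AdmS a S) {α : ℝ} (hα : α ≠ 0) :
    ∫⁻ t : ℝ, ‖PP a α t‖ₑ ^ 2 ≤ ENNReal.ofReal (|α|⁻¹) * ov S α := by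
  have h1 : ∀ t, ‖PP a α t‖ₑ ^ 2 = (fun τ => ‖W a α τ‖ₑ ^ 2) ((2 * α) * t) := by
    intro t
    simp only
    rw [← ofReal_norm, PP_norm, ofReal_norm]
  simp only [h1]
  rw [lint_mul (2 * α) (by simpa using hα) (fun τ => ‖W a α τ‖ₑ ^ 2)]
  refine mul_le_mul' ?_ (W_planch' h α)
  apply ENNReal.ofReal_le_ofReal
  rw [abs_inv, abs_mul, abs_of_pos (two_pos : (0 : ℝ) < 2)]
  have h2 : 0 < |α| := abs_pos.2 hα
  apply inv_anti₀ h2
  linarith

end Pool.Agent.Q85.HL
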