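import Mathlib
import Pool.Agent.Q85.HL.A
set_option autoImplicit false
set_option linter.unusedSectionVars false

/-! The restricted `L^{2r}` bound, `r > 2`. -/

namespace Pool.Agent.Q85.HL

open MeasureTheory Set Complex
open Pool.Agent.TH277.HT
open scoped ENNReal NNReal

variable {H : Type} [NormedAddCommGroup H] [InnerProductSpace ℂ H] [CompleteSpace H]

attribute [local irreducible] PP W E1

/-- splitting off the far part -/
lemma E1_sq_le' {a : ℝ → H} {S : Set ℝ} (h : AdmS a S) {δ : ℝ} (hδ : 0 < δ) (x t : ℝ) :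
    ‖E1 a x t‖ ^ 2 ≤ 2 * δ * (volume S).toReal + ‖G2 a δ x t‖ := by
  have ha := h.adm
  have h0 : Integrable fun α : ℝ => ch (α * x) * PP a α t := by
    apply int_of_supp _ 2 2
    · intro α
      rw [norm_mul, ch_norm, one_mul]
      exact PP_le ha α t
    · intro α h
      rw [PP_zero h t, mul_zero]
    · exact (ch_cont.comp (by fun_prop : Continuous fun α : ℝ => α * x)).stronglyMeasurable.mul
        (PPt_meas ha t)
  have h1 := E1_sq ha x t
  rw [← integral_add_compl (far_meas δ) h0] at h1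
  have h2 : ∫ α in far δ, ch (α * x) * PP a α t = G2 a δ x t := by
    unfold G2
    rw [← integral_indicator (far_meas δ)]
    apply integral_congr_ae
    refine ae_of_all _ fun α => ?_
    simp only
    by_cases h : α ∈ far δ
    · rw [indicator_of_mem h, indicator_of_mem h, smul_eq_mul]
    · rw [indicator_of_notMem h, indicator_of_notMem h, smul_zero]
  have hc : (far δ)ᶜ = Icc (-δ) δ := by
    ext α
    simp only [far, mem_compl_iff, mem_ofPred_eq, not_lt, mem_Icc]
    exact abs_le
  have h3 : ‖∫ α in (far δ)ᶜ, ch (α * x) * PP a α t‖ ≤ 2 * δ * (volume S).toReal := by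
    rw [hc]
    calc ‖∫ α in Icc (-δ) δ, ch (α * x) * PP a α t‖
        ≤ (volume S).toReal * (volume (Icc (-δ) δ)).toReal := by
          apply norm_setIntegral_le_of_norm_le_const
          · rw [Real.volume_Icc]
            exact ENNReal.ofReal_lt_top
          · intro α _
            rw [norm_mul, ch_norm, one_mul, ← toReal_enorm]
            exact ENNReal.toReal_mono h.fin (PP_le' h α t)
      _ = 2 * δ * (volume S).toReal := by
          rw [Real.volume_Icc, ENNReal.toReal_ofReal (by linarith)]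
          ring
  have h4 : ‖((‖E1 a x t‖ ^ 2 : ℝ) : ℂ)‖ = ‖E1 a x t‖ ^ 2 := by
    rw [Complex.norm_real, Real.norm_of_nonneg (by positivity)]
  rw [← h4, h1, h2]
  refine (norm_add_le _ _).trans ?_
  linarith

/-- the `L²` bound of the far part -/
lemma G2_int' {a : ℝ → H} {S : Set ℝ} (h : AdmS a S) {ε δ m : ℝ} (hε : 0 < ε) (hδ : 0 < δ)
    (hm0 : 0 < m) (hmS : volume S = ENNReal.ofReal m) :
    ∫⁻ p : ℝ × ℝ, ‖G2 a δ p.1 p.2‖ₑ ^ 2 ≤
      ENNReal.ofReal (2 * m * m ^ ε * δ ^ (-ε) / ε + m) := by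
  have ha := h.adm
  have hm : Measurable fun p : ℝ × ℝ => ‖G2 a δ p.1 p.2‖ₑ ^ 2 :=
    (G2_meas ha δ).measurable.enorm.pow_const 2
  rw [Measure.volume_eq_prod, lintegral_prod_symm _ hm.aemeasurable]
  simp only [G2_planch ha]
  have hm2 : Measurable fun p : ℝ × ℝ =>
      ‖(far δ).indicator (fun α => PP a α p.1) p.2‖ₑ ^ 2 := by
    have h2 : (fun q : ℝ × ℝ => (far δ).indicator (fun α => PP a α q.1) q.2) =
        ({q : ℝ × ℝ | q.2 ∈ far δ}).indicator fun q => PP a q.2 q.1 := by
      ext q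
      by_cases h : q.2 ∈ far δ
      · rw [indicator_of_mem h, indicator_of_mem (show q ∈ {q : ℝ × ℝ | q.2 ∈ far δ} from h)]
      · rw [indicator_of_notMem h, indicator_of_notMem (show q ∉ {q : ℝ × ℝ | q.2 ∈ far δ} from h)]
    have h3 : Measurable fun q : ℝ × ℝ => (far δ).indicator (fun α => PP a α q.1) q.2 := by
      rw [h2]
      apply Measurable.indicator
      · exact ((PP_meas ha).comp_measurable
          (by fun_prop : Measurable fun q : ℝ × ℝ => ((q.2, q.1) : ℝ × ℝ))).measurable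
      · exact measurable_snd (far_meas δ)
    exact h3.enorm.pow_const 2
  rw [lintegral_lintegral_swap (f := fun t α => ‖(far δ).indicator (fun α => PP a α t) α‖ₑ ^ 2)
    hm2.aemeasurable]
  have habs : Measurable fun α : ℝ => |α| := by fun_prop
  have hmm : (0 : ℝ) < m ^ ε := Real.rpow_pos_of_pos hm0 _
  calc ∫⁻ α, ∫⁻ t, ‖(far δ).indicator (fun α => PP a α t) α‖ₑ ^ 2
      ≤ ∫⁻ α, ((far δ).indicator
          (fun α => ENNReal.ofReal (m * m ^ ε) * ENNReal.ofReal (|α| ^ (-(1 + ε)))) α +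
          ENNReal.ofReal (m⁻¹) * ov S α) := by
        apply lintegral_mono
        intro α
        simp only
        by_cases h1 : α ∈ far δ
        · simp only [indicator_of_mem h1]
          have hα0 : 0 < |α| := hδ.trans h1
          refine (PP_time' h (abs_pos.1 hα0)).trans ?_
          by_cases h2 : |α| ≤ m
          · refine le_trans ?_ le_self_add
            calc ENNReal.ofReal (|α|⁻¹) * ov S α
                ≤ ENNReal.ofReal (|α|⁻¹) * ENNReal.ofReal m := by
                  gcongr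
                  rw [← hmS]
                  exact ov_le h.mS α
              _ ≤ _ := by
                  rw [← ENNReal.ofReal_mul (by positivity), ← ENNReal.ofReal_mul (by positivity)]
                  apply ENNReal.ofReal_le_ofReal
                  rw [show -(1 + ε) = -1 + -ε by ring, Real.rpow_add hα0, Real.rpow_neg_one,
                    Real.rpow_neg hα0.le]
                  have h3 : |α| ^ ε ≤ m ^ ε := Real.rpow_le_rpow hα0.le h2 hε.le
                  have h4 : 0 < |α| ^ ε := Real.rpow_pos_of_pos hα0 _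
                  calc |α|⁻¹ * m = m * (|α|⁻¹ * ((|α| ^ ε) * (|α| ^ ε)⁻¹)) := by
                        rw [mul_inv_cancel₀ h4.ne', mul_one]
                        ring
                    _ ≤ m * (|α|⁻¹ * ((m ^ ε) * (|α| ^ ε)⁻¹)) := by gcongr
                    _ = m * m ^ ε * (|α|⁻¹ * (|α| ^ ε)⁻¹) := by ring
          · refine le_trans ?_ le_add_self
            gcongr
            exact (not_le.1 h2).le
        · simp only [indicator_of_notMem h1, enorm_zero]
          simp
    _ = ENNReal.ofReal (m * m ^ ε) * (∫⁻ α in far δ, ENNReal.ofReal (|α| ^ (-(1 + ε)))) +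
          ENNReal.ofReal (m⁻¹) * (volume S * volume S) := by
        rw [lintegral_add_right _ ((ov_meas h.mS).const_mul _),
          lintegral_indicator (far_meas δ),
          lintegral_const_mul _ ((habs.pow_const _).ennreal_ofReal),
          lintegral_const_mul _ (ov_meas h.mS), ov_int h.mS]
    _ ≤ ENNReal.ofReal (m * m ^ ε) * (2 * ENNReal.ofReal (δ ^ (-ε) / ε)) +
          ENNReal.ofReal (m⁻¹) * (volume S * volume S) := by
        exact add_le_add (mul_le_mul' le_rfl (far_int hε hδ)) le_rfl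
    _ = _ := by
        rw [hmS, show (2 : ℝ≥0∞) = ENNReal.ofReal 2 by norm_num,
          ← ENNReal.ofReal_mul (by norm_num), ← ENNReal.ofReal_mul (by positivity),
          ← ENNReal.ofReal_mul (by positivity), ← ENNReal.ofReal_mul (by positivity),
          ← ENNReal.ofReal_add (by positivity) (by positivity)]
        congr 1
        field_simp

/-- the level sets -/
lemma level' {a : ℝ → H} {S : Set ℝ} (h : AdmS a S) {ε l m : ℝ} (hε : 0 < ε) (hl : 0 < l)
    (hm0 : 0 < m) (hmS : volume S = ENNReal.ofReal m) (hlm : l ≤ m ^ 2) :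
    volume {p : ℝ × ℝ | l < ‖E1 a p.1 p.2‖ ^ 2} ≤
      ENNReal.ofReal ((8 / ε + 4) * 4 ^ ε * m * m ^ (2 * ε) * l ^ (-2 - ε)) := by
  have ha := h.adm
  have hδ : 0 < l / (4 * m) := by positivity
  have h1 : {p : ℝ × ℝ | l < ‖E1 a p.1 p.2‖ ^ 2} ⊆
      {p : ℝ × ℝ | ENNReal.ofReal ((l / 2) ^ 2) ≤ ‖G2 a (l / (4 * m)) p.1 p.2‖ₑ ^ 2} := by
    intro p hp
    have h2 := E1_sq_le' h hδ p.1 p.2
    rw [hmS, ENNReal.toReal_ofReal hm0.le] at h2
    have h22 : 2 * (l / (4 * m)) * m = l / 2 := by
      field_simp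
      ring
    rw [h22] at h2
    have h3 : l / 2 ≤ ‖G2 a (l / (4 * m)) p.1 p.2‖ := by
      have : l < ‖E1 a p.1 p.2‖ ^ 2 := hp
      linarith
    show ENNReal.ofReal ((l / 2) ^ 2) ≤ ‖G2 a (l / (4 * m)) p.1 p.2‖ₑ ^ 2
    rw [ENNReal.ofReal_pow (by positivity), ← ofReal_norm]
    gcongr
  refine (measure_mono h1).trans ?_
  have hm : Measurable fun p : ℝ × ℝ => ‖G2 a (l / (4 * m)) p.1 p.2‖ₑ ^ 2 :=
    (G2_meas ha _).measurable.enorm.pow_const 2
  have hl2 : 0 < (l / 2) ^ 2 := by positivity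
  refine (meas_ge_le_lintegral_div hm.aemeasurable (by simpa using hl2.ne')
    ENNReal.ofReal_ne_top).trans ?_
  calc (∫⁻ p : ℝ × ℝ, ‖G2 a (l / (4 * m)) p.1 p.2‖ₑ ^ 2) / ENNReal.ofReal ((l / 2) ^ 2)
      ≤ ENNReal.ofReal (2 * m * m ^ ε * (l / (4 * m)) ^ (-ε) / ε + m) /
          ENNReal.ofReal ((l / 2) ^ 2) := by
        gcongr
        exact G2_int' h hε hδ hm0 hmS
    _ ≤ _ := by
        rw [← ENNReal.ofReal_div_of_pos hl2]
        apply ENNReal.ofReal_le_ofReal
        have e1 : (l / (4 * m)) ^ (-ε) = l ^ (-ε) * (4 ^ ε * m ^ ε) := by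
          rw [Real.div_rpow hl.le (by positivity), Real.rpow_neg (by positivity : 0 ≤ 4 * m),
            div_inv_eq_mul, Real.mul_rpow (by norm_num) hm0.le]
        have e2 : m ^ (2 * ε) = m ^ ε * m ^ ε := by
          rw [two_mul, Real.rpow_add hm0]
        have e3 : l ^ (-2 - ε) = l ^ (-ε) * (l ^ 2)⁻¹ := by
          rw [show -2 - ε = -ε + -2 by ring, Real.rpow_add hl, Real.rpow_neg hl.le 2,
            Real.rpow_two]
        -- `1 ≤ l^{-ε} m^{2ε}`
        have e4 : 1 ≤ l ^ (-ε) * (m ^ ε * m ^ ε) := by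
          rw [← e2, Real.rpow_mul hm0.le, Real.rpow_two, Real.rpow_neg hl.le]
          rw [← div_eq_inv_mul, one_le_div (Real.rpow_pos_of_pos hl _)]
          exact Real.rpow_le_rpow hl.le hlm hε.le
        have e5 : (1 : ℝ) ≤ 4 ^ ε := Real.one_le_rpow (by norm_num) hε.le
        have p1 : 0 < l ^ (-ε) := Real.rpow_pos_of_pos hl _
        have p2 : 0 < m ^ ε := Real.rpow_pos_of_pos hm0 _
        have p3 : (0 : ℝ) < 4 ^ ε := by positivity
        rw [e1, e2, e3]
        rw [div_le_iff₀ hl2]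
        have e6 : (8 / ε + 4) * 4 ^ ε * m * (m ^ ε * m ^ ε) * (l ^ (-ε) * (l ^ 2)⁻¹) * (l / 2) ^ 2 =
            (2 / ε) * 4 ^ ε * m * (m ^ ε * m ^ ε) * l ^ (-ε) +
              m * (4 ^ ε * (l ^ (-ε) * (m ^ ε * m ^ ε))) := by
          field_simp
          ring
        rw [e6]
        have e7 : 2 * m * m ^ ε * (l ^ (-ε) * (4 ^ ε * m ^ ε)) / ε =
            (2 / ε) * 4 ^ ε * m * (m ^ ε * m ^ ε) * l ^ (-ε) := by
          field_simp
        rw [e7]
        have e8 : m * 1 ≤ m * (4 ^ ε * (l ^ (-ε) * (m ^ ε * m ^ ε))) := by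
          gcongr
          exact one_le_mul_of_one_le_of_one_le e5 e4
        linarith

/-- The restricted `L^{2r}` bound, `r > 2`. -/
theorem zyg' (r : ℝ) (hr : 2 < r) : ∃ C : ℝ≥0, ∀ (H : Type) [NormedAddCommGroup H]
    [InnerProductSpace ℂ H] [CompleteSpace H] (a : ℝ → H) (S : Set ℝ) (m : ℝ), AdmS a S → 0 < m →
    volume S = ENNReal.ofReal m →
    ∫⁻ p : ℝ × ℝ, ENNReal.ofReal ((‖E1 a p.1 p.2‖ ^ 2) ^ r) ≤ C * ENNReal.ofReal (m ^ (2 * r - 3)) := by
  set ε : ℝ := (r - 2) / 2 with hε
  have hε0 : 0 < ε := by rw [hε]; linarith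
  set K : ℝ := (8 / ε + 4) * 4 ^ ε with hK
  have hK0 : 0 < K := by positivity
  refine ⟨(r * (K / ε)).toNNReal, ?_⟩
  intro H _ _ _ a S m h hm0 hmS
  have ha := h.adm
  have hm : Measurable fun p : ℝ × ℝ => ‖E1 a p.1 p.2‖ ^ 2 := (E1_meas ha).norm.measurable.pow_const 2
  rw [lintegral_rpow_eq_lintegral_meas_lt_mul volume (ae_of_all _ fun p => by positivity)
    hm.aemeasurable (by linarith)]
  have hm2 : 0 < m ^ 2 := by positivity
  have key : ∫⁻ l in Ioi (0 : ℝ), volume {p : ℝ × ℝ | l < ‖E1 a p.1 p.2‖ ^ 2} *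
      ENNReal.ofReal (l ^ (r - 1)) ≤ ENNReal.ofReal (K / ε * m ^ (2 * r - 3)) := by
    rw [← Ioc_union_Ioi_eq_Ioi hm2.le]
    refine (lintegral_union_le _ _ _).trans ?_
    have h2 : ∫⁻ l in Ioi (m ^ 2), volume {p : ℝ × ℝ | l < ‖E1 a p.1 p.2‖ ^ 2} *
        ENNReal.ofReal (l ^ (r - 1)) = 0 := by
      rw [setLIntegral_congr_fun (g := fun _ => 0) measurableSet_Ioi, lintegral_zero]
      intro l hl
      simp only
      have h3 : {p : ℝ × ℝ | l < ‖E1 a p.1 p.2‖ ^ 2} = ∅ := by
        ext p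
        simp only [mem_ofPred_eq, mem_empty_iff_false, iff_false, not_lt]
        have h4 : ‖E1 a p.1 p.2‖ ≤ m := by
          have h5 := E1_le' h p.1 p.2
          rw [hmS] at h5
          rw [← toReal_enorm]
          exact ENNReal.toReal_le_of_le_ofReal hm0.le h5
        have h5 : ‖E1 a p.1 p.2‖ ^ 2 ≤ m ^ 2 := by gcongr
        have h6 : m ^ 2 < l := hl
        linarith
      rw [h3, measure_empty, zero_mul]
    rw [h2, add_zero]
    have hint : IntervalIntegrable (fun l : ℝ => K * m * m ^ (2 * ε) * l ^ (ε - 1)) volume 0 (m ^ 2) :=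
      (intervalIntegral.intervalIntegrable_rpow' (by linarith)).const_mul _
    calc ∫⁻ l in Ioc 0 (m ^ 2), volume {p : ℝ × ℝ | l < ‖E1 a p.1 p.2‖ ^ 2} *
          ENNReal.ofReal (l ^ (r - 1))
        ≤ ∫⁻ l in Ioc 0 (m ^ 2), ENNReal.ofReal (K * m * m ^ (2 * ε) * l ^ (ε - 1)) := by
          apply setLIntegral_mono' measurableSet_Ioc
          intro l hl
          calc volume {p : ℝ × ℝ | l < ‖E1 a p.1 p.2‖ ^ 2} * ENNReal.ofReal (l ^ (r - 1))
              ≤ ENNReal.ofReal (K * m * m ^ (2 * ε) * l ^ (-2 - ε)) *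
                  ENNReal.ofReal (l ^ (r - 1)) := by
                gcongr
                exact level' h hε0 hl.1 hm0 hmS hl.2
            _ = ENNReal.ofReal (K * m * m ^ (2 * ε) * l ^ (ε - 1)) := by
                rw [← ENNReal.ofReal_mul (mul_nonneg (by positivity) (Real.rpow_nonneg hl.1.le _)),
                  mul_assoc, ← Real.rpow_add hl.1]
                congr 3
                rw [hε]
                ring
      _ = ENNReal.ofReal (∫ l in (0 : ℝ)..(m ^ 2), K * m * m ^ (2 * ε) * l ^ (ε - 1)) := by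
          rw [intervalIntegral.integral_of_le hm2.le, ofReal_integral_eq_lintegral_ofReal]
          · exact (intervalIntegrable_iff_integrableOn_Ioc_of_le hm2.le).1 hint
          · refine (ae_restrict_iff' measurableSet_Ioc).2 (ae_of_all _ fun l hl => ?_)
            have := Real.rpow_nonneg hl.1.le (ε - 1)
            positivity
      _ = ENNReal.ofReal (K / ε * m ^ (2 * r - 3)) := by
          rw [intervalIntegral.integral_const_mul, integral_rpow (Or.inl (by linarith))]
          congr 1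
          rw [sub_add_cancel, Real.zero_rpow hε0.ne', sub_zero]
          have e1 : (m ^ 2) ^ ε = m ^ (2 * ε) := by
            rw [Real.rpow_mul hm0.le, Real.rpow_two]
          have e2 : m ^ (2 * r - 3) = m * m ^ (2 * ε) * m ^ (2 * ε) := by
            rw [mul_assoc, ← Real.rpow_add hm0]
            nth_rewrite 2 [← Real.rpow_one m]
            rw [← Real.rpow_add hm0]
            congr 1
            rw [hε]
            ring
          rw [e1, e2]
          field_simp
  calc ENNReal.ofReal r * ∫⁻ l in Ioi (0 : ℝ), volume {p : ℝ × ℝ | l < ‖E1 a p.1 p.2‖ ^ 2} *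
      ENNReal.ofReal (l ^ (r - 1))
      ≤ ENNReal.ofReal r * ENNReal.ofReal (K / ε * m ^ (2 * r - 3)) := by gcongr
    _ = _ := by
        rw [← ENNReal.ofReal_mul (by linarith), ← mul_assoc, ENNReal.ofReal_mul (by positivity)]
        rfl

end Pool.Agent.Q85.HL
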