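import Mathlib
import Pool.Agent.Q85.HL.B
set_option autoImplicit false
set_option linter.unusedSectionVars false

/-! The mixed norm bounds, restricted form. Weighted Jensen inequality for series. -/

namespace Pool.Agent.Q85.HL

open MeasureTheory Set Complex
open Pool.Agent.TH277.HT
open scoped ENNReal NNReal

attribute [local irreducible] PP W E1

/-- the mixed norm functional -/
noncomputable def MX {H : Type} [NormedAddCommGroup H] [InnerProductSpace ℂ H] (q : ℝ)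
    (a : ℝ → H) : ℝ≥0∞ := ∫⁻ t : ℝ, (∫⁻ x : ℝ, ‖E1 a x t‖ₑ ^ q) ^ (2 : ℝ)

lemma E1x_meas {H : Type} [NormedAddCommGroup H] [InnerProductSpace ℂ H] [CompleteSpace H]
    {a : ℝ → H} (ha : Adm a) (t : ℝ) : StronglyMeasurable fun x : ℝ => E1 a x t :=
  (E1_meas ha).comp_measurable (by fun_prop : Measurable fun x : ℝ => ((x, t) : ℝ × ℝ))

/-- The restricted mixed norm bound. -/
theorem mixS (q : ℝ) (hq : 3 < q) : ∃ C : ℝ≥0, ∀ (H : Type) [NormedAddCommGroup H]
    [InnerProductSpace ℂ H] [CompleteSpace H] (a : ℝ → H) (S : Set ℝ), AdmS a S →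
    MX q a ≤ C * (volume S) ^ (2 * q - 4) := by
  obtain ⟨C, hC⟩ := zyg' (q - 1) (by linarith)
  refine ⟨C, ?_⟩
  intro H _ _ _ a S h
  have ha := h.adm
  by_cases hz : volume S = 0
  · have h1 : ∀ x t, ‖E1 a x t‖ₑ = 0 := by
      intro x t
      have := E1_le' h x t
      rw [hz] at this
      exact le_antisymm this zero_le
    unfold MX
    simp only [h1]
    rw [ENNReal.zero_rpow_of_pos (by linarith), lintegral_zero,
      ENNReal.zero_rpow_of_pos (by norm_num), lintegral_zero]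
    exact zero_le
  set m : ℝ := (volume S).toReal with hm
  have hmS : volume S = ENNReal.ofReal m := (ENNReal.ofReal_toReal h.fin).symm
  have hm0 : 0 < m := ENNReal.toReal_pos hz h.fin
  have hmx : ∀ t, Measurable fun x : ℝ => ‖E1 a x t‖ₑ := fun t => (E1x_meas ha t).enorm
  have h1 : ∀ t : ℝ, (∫⁻ x : ℝ, ‖E1 a x t‖ₑ ^ q) ^ (2 : ℝ) ≤
      volume S * ∫⁻ x : ℝ, ‖E1 a x t‖ₑ ^ (2 * (q - 1)) := by
    intro t
    have h2 : ∀ x : ℝ, ‖E1 a x t‖ₑ ^ q =
        (‖E1 a x t‖ₑ ^ 2) ^ (1 / 2 : ℝ) * (‖E1 a x t‖ₑ ^ (2 * (q - 1))) ^ (1 / 2 : ℝ) := by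
      intro x
      rw [← ENNReal.rpow_natCast, ← ENNReal.rpow_mul, ← ENNReal.rpow_mul,
        ← ENNReal.rpow_add_of_nonneg _ _ (by norm_num) (by
          have : 0 ≤ q - 1 := by linarith
          positivity)]
      congr 1
      push_cast
      ring
    have h3 : ∫⁻ x : ℝ, ‖E1 a x t‖ₑ ^ q ≤
        (∫⁻ x : ℝ, ‖E1 a x t‖ₑ ^ 2) ^ (1 / 2 : ℝ) *
          (∫⁻ x : ℝ, ‖E1 a x t‖ₑ ^ (2 * (q - 1))) ^ (1 / 2 : ℝ) := by
      simp only [h2]
      exact ENNReal.lintegral_mul_norm_pow_le ((hmx t).pow_const 2).aemeasurable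
        ((hmx t).pow_const _).aemeasurable (by norm_num) (by norm_num) (by norm_num)
    calc (∫⁻ x : ℝ, ‖E1 a x t‖ₑ ^ q) ^ (2 : ℝ)
        ≤ ((volume S) ^ (1 / 2 : ℝ) *
          (∫⁻ x : ℝ, ‖E1 a x t‖ₑ ^ (2 * (q - 1))) ^ (1 / 2 : ℝ)) ^ (2 : ℝ) := by
          gcongr
          refine h3.trans ?_
          gcongr
          exact E1_planch' h t
      _ = _ := by
          rw [ENNReal.mul_rpow_of_nonneg _ _ (by norm_num), ← ENNReal.rpow_mul,
            ← ENNReal.rpow_mul]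
          norm_num
  calc MX q a ≤ ∫⁻ t : ℝ, volume S * ∫⁻ x : ℝ, ‖E1 a x t‖ₑ ^ (2 * (q - 1)) := lintegral_mono h1
    _ = volume S * ∫⁻ t : ℝ, ∫⁻ x : ℝ, ‖E1 a x t‖ₑ ^ (2 * (q - 1)) := by
        rw [lintegral_const_mul' _ _ h.fin]
    _ = volume S * ∫⁻ p : ℝ × ℝ, ‖E1 a p.1 p.2‖ₑ ^ (2 * (q - 1)) := by
        rw [Measure.volume_eq_prod, lintegral_prod_symm _
          ((E1_meas ha).enorm.pow_const _).aemeasurable]
    _ ≤ volume S * (C * ENNReal.ofReal (m ^ (2 * (q - 1) - 3))) := by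
        gcongr
        refine le_trans (le_of_eq ?_) (hC H a S m h hm0 hmS)
        apply lintegral_congr
        intro p
        rw [← ofReal_norm, ENNReal.ofReal_rpow_of_nonneg (norm_nonneg _) (by linarith)]
        congr 1
        rw [← Real.rpow_natCast, ← Real.rpow_mul (norm_nonneg _)]
        congr 1
    _ = C * (volume S) ^ (2 * q - 4) := by
        rw [hmS, ENNReal.ofReal_rpow_of_pos hm0]
        rw [show 2 * q - 4 = 1 + (2 * (q - 1) - 3) by ring, Real.rpow_add hm0, Real.rpow_one,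
          ENNReal.ofReal_mul hm0.le]
        ring

/-- the weighted Jensen inequality for series -/
lemma jensen (c y : ℕ → ℝ≥0∞) (s : ℝ) (hs : 1 < s) (hc0 : ∀ j, c j ≠ 0) (hct : ∀ j, c j ≠ ⊤) :
    (∑' j, y j) ^ s ≤ (∑' j, c j) ^ (s - 1) * ∑' j, c j ^ (1 - s) * y j ^ s := by
  have hs0 : 0 < s := by linarith
  have hs1 : 0 < s - 1 := by linarith
  set r : ℝ := s / (s - 1) with hr
  have hr0 : 0 < r := by positivity
  have hpq : r.HolderConjugate s := by
    rw [Real.holderConjugate_iff]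
    constructor
    · rw [hr, one_lt_div hs1]
      linarith
    · rw [hr]
      field_simp
      ring
  have h1 := ENNReal.lintegral_mul_le_Lp_mul_Lq (Measure.count : Measure ℕ) hpq
    (f := fun j => c j ^ (1 / r)) (g := fun j => c j ^ (-(1 / r)) * y j)
    (measurable_of_countable _).aemeasurable (measurable_of_countable _).aemeasurable
  rw [lintegral_count, lintegral_count, lintegral_count] at h1
  have h2 : ∀ j, ((fun j => c j ^ (1 / r)) * fun j => c j ^ (-(1 / r)) * y j) j = y j := by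
    intro j
    simp only [Pi.mul_apply]
    rw [← mul_assoc, ← ENNReal.rpow_add _ _ (hc0 j) (hct j), add_neg_cancel, ENNReal.rpow_zero,
      one_mul]
  have h3 : ∀ j, (c j ^ (1 / r)) ^ r = c j := by
    intro j
    rw [← ENNReal.rpow_mul, one_div_mul_cancel hr0.ne', ENNReal.rpow_one]
  have h4 : ∀ j, (c j ^ (-(1 / r)) * y j) ^ s = c j ^ (1 - s) * y j ^ s := by
    intro j
    rw [ENNReal.mul_rpow_of_nonneg _ _ hs0.le, ← ENNReal.rpow_mul]
    congr 2
    rw [hr]
    field_simp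
    ring
  simp only [h2, h3, h4] at h1
  calc (∑' j, y j) ^ s ≤ ((∑' j, c j) ^ (1 / r) * (∑' j, c j ^ (1 - s) * y j ^ s) ^ (1 / s)) ^ s := by
        gcongr
    _ = _ := by
        rw [ENNReal.mul_rpow_of_nonneg _ _ hs0.le, ← ENNReal.rpow_mul, ← ENNReal.rpow_mul,
          one_div_mul_cancel hs0.ne', ENNReal.rpow_one]
        congr 2
        rw [hr]
        field_simp

end Pool.Agent.Q85.HL
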