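import Mathlib
import Pool.Agent.Q85.HL.C
set_option autoImplicit false
set_option linter.unusedSectionVars false

/-! Strong bounds from the restricted ones: the level sets of the norm of the function. -/

namespace Pool.Agent.Q85.HL

open MeasureTheory Set Complex
open Pool.Agent.TH277.HT
open scoped ENNReal NNReal

variable {H : Type} [NormedAddCommGroup H] [InnerProductSpace ℂ H] [CompleteSpace H]

attribute [local irreducible] PP W

/-- the level sets -/
def lv (a : ℝ → H) : ℕ → Set ℝ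
  | 0 => Icc (-1 : ℝ) 1 ∩ {u | ‖a u‖ < 1}
  | (j + 1) => Icc (-1 : ℝ) 1 ∩ {u | (2 : ℝ) ^ j ≤ ‖a u‖ ∧ ‖a u‖ < 2 ^ (j + 1)}

/-- the normalised pieces -/
noncomputable def pc (a : ℝ → H) (j : ℕ) : ℝ → H :=
  (lv a j).indicator fun u => ((((2 : ℝ) ^ j)⁻¹ : ℝ) : ℂ) • a u

lemma lv_meas {a : ℝ → H} (ha : StronglyMeasurable a) (j : ℕ) : MeasurableSet (lv a j) := by
  have hn : Measurable fun u => ‖a u‖ := ha.norm.measurable
  cases j with
  | zero => exact measurableSet_Icc.inter (measurableSet_lt hn measurable_const)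
  | succ j =>
    exact measurableSet_Icc.inter
      ((measurableSet_le measurable_const hn).inter (measurableSet_lt hn measurable_const))

lemma lv_sub (a : ℝ → H) (j : ℕ) : lv a j ⊆ Icc (-1 : ℝ) 1 := by
  cases j with
  | zero => exact inter_subset_left
  | succ j => exact inter_subset_left

lemma lv_lt (a : ℝ → H) (j : ℕ) {u : ℝ} (h : u ∈ lv a j) : ‖a u‖ < 2 ^ j := by
  cases j with
  | zero =>
    have := h.2
    simpa using this
  | succ j => exact h.2.2

lemma lv_ex (a : ℝ → H) {u : ℝ} (h : u ∈ Icc (-1 : ℝ) 1) : ∃ j, u ∈ lv a j := by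
  by_cases h1 : ‖a u‖ < 1
  · exact ⟨0, h, h1⟩
  · obtain ⟨n, hn1, hn2⟩ := exists_nat_pow_near (not_lt.1 h1) (one_lt_two : (1 : ℝ) < 2)
    exact ⟨n + 1, h, hn1, hn2⟩

lemma lv_uniq (a : ℝ → H) {u : ℝ} {i j : ℕ} (hi : u ∈ lv a i) (hj : u ∈ lv a j) : i = j := by
  have key : ∀ i j : ℕ, i < j → u ∈ lv a i → u ∈ lv a j → False := by
    intro i j hij hi hj
    obtain ⟨k, rfl⟩ : ∃ k, j = k + 1 := ⟨j - 1, by omega⟩
    have h1 := lv_lt a i hi
    have h2 : (2 : ℝ) ^ k ≤ ‖a u‖ := hj.2.1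
    have h3 : (2 : ℝ) ^ i ≤ 2 ^ k := pow_le_pow_right₀ (by norm_num) (by omega)
    linarith
  rcases lt_trichotomy i j with h | h | h
  · exact (key i j h hi hj).elim
  · exact h
  · exact (key j i h hj hi).elim

lemma pc_adm {a : ℝ → H} (ha : StronglyMeasurable a) (j : ℕ) : AdmS (pc a j) (lv a j) where
  meas := by
    unfold pc
    exact (ha.const_smul _).indicator (lv_meas ha j)
  bd := by
    intro u
    unfold pc
    by_cases h : u ∈ lv a j
    · rw [indicator_of_mem h, norm_smul, Complex.norm_real, Real.norm_of_nonneg (by positivity)]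
      have h1 := lv_lt a j h
      have h2 : (0 : ℝ) < 2 ^ j := by positivity
      rw [inv_mul_le_iff₀ h2]
      linarith
    · rw [indicator_of_notMem h, norm_zero]
      exact zero_le_one
  zero := fun u hu => indicator_of_notMem hu _
  mS := lv_meas ha j
  sub := lv_sub a j

lemma pc_sum (a : ℝ → H) {u : ℝ} (h : u ∈ Icc (-1 : ℝ) 1) :
    ∑' j, (((2 : ℝ) ^ j : ℝ) : ℂ) • pc a j u = a u := by
  obtain ⟨j, hj⟩ := lv_ex a h
  rw [tsum_eq_single j]
  · unfold pc
    rw [indicator_of_mem hj, smul_smul, ← Complex.ofReal_mul,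
      mul_inv_cancel₀ (by positivity), Complex.ofReal_one, one_smul]
  · intro i hi
    unfold pc
    rw [indicator_of_notMem (fun h2 => hi (lv_uniq a h2 hj)), smul_zero]

lemma pc_enorm (a : ℝ → H) {u : ℝ} (h : u ∈ Icc (-1 : ℝ) 1) :
    ∑' j, ‖(((2 : ℝ) ^ j : ℝ) : ℂ) • pc a j u‖ₑ = ‖a u‖ₑ := by
  obtain ⟨j, hj⟩ := lv_ex a h
  rw [tsum_eq_single j]
  · unfold pc
    rw [indicator_of_mem hj, smul_smul, ← Complex.ofReal_mul,
      mul_inv_cancel₀ (by positivity), Complex.ofReal_one, one_smul]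
  · intro i hi
    unfold pc
    rw [indicator_of_notMem (fun h2 => hi (lv_uniq a h2 hj)), smul_zero, enorm_zero]

/-- the extension of `a` is dominated by the sum of the extensions of the pieces -/
lemma E1_tsum_le {a : ℝ → H} (ha : StronglyMeasurable a)
    (hi : ∫⁻ u in Icc (-1 : ℝ) 1, ‖a u‖ₑ ≠ ⊤) (x t : ℝ) :
    ‖E1 a x t‖ₑ ≤ ∑' j, ENNReal.ofReal (2 ^ j) * ‖E1 (pc a j) x t‖ₑ := by
  have hm : ∀ j : ℕ, StronglyMeasurable fun u : ℝ =>
      ch (u * x + u ^ 2 * t) • ((((2 : ℝ) ^ j : ℝ) : ℂ) • pc a j u) := by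
    intro j
    apply StronglyMeasurable.smul
    · exact (ch_cont.comp (by fun_prop : Continuous fun u : ℝ => u * x + u ^ 2 * t)).stronglyMeasurable
    · exact (pc_adm ha j).meas.const_smul _
  have h1 : E1 a x t = ∑' j : ℕ, ∫ u in Icc (-1 : ℝ) 1,
      ch (u * x + u ^ 2 * t) • ((((2 : ℝ) ^ j : ℝ) : ℂ) • pc a j u) := by
    rw [← integral_tsum (fun j => (hm j).aestronglyMeasurable)]
    · unfold E1
      apply setIntegral_congr_fun measurableSet_Icc
      intro u hu
      simp only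
      rw [← pc_sum a hu]
      rw [tsum_const_smul'']
    · rw [← lintegral_tsum (fun j => (hm j).enorm.aemeasurable)]
      refine ne_top_of_le_ne_top hi (le_of_eq ?_)
      apply setLIntegral_congr_fun measurableSet_Icc
      intro u hu
      simp only
      rw [← pc_enorm a hu]
      apply tsum_congr
      intro j
      rw [enorm_smul, ch_enorm, one_mul]
  rw [h1]
  refine enorm_tsum_le_tsum_enorm.trans ?_
  apply ENNReal.tsum_le_tsum
  intro j
  apply le_of_eq
  have h2 : ∫ u in Icc (-1 : ℝ) 1, ch (u * x + u ^ 2 * t) • ((((2 : ℝ) ^ j : ℝ) : ℂ) • pc a j u) =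
      (((2 : ℝ) ^ j : ℝ) : ℂ) • E1 (pc a j) x t := by
    unfold E1
    rw [← integral_smul]
    apply integral_congr_ae
    refine ae_of_all _ fun u => ?_
    simp only
    rw [smul_comm]
  rw [h2, enorm_smul]
  congr 1
  rw [← ofReal_norm, Complex.norm_real, Real.norm_of_nonneg (by positivity)]

/-- the measure of the level sets -/
lemma lv_vol {a : ℝ → H} (ha : StronglyMeasurable a) (p : ℝ) (hp : 0 < p)
    (hA : ∫⁻ u in Icc (-1 : ℝ) 1, ‖a u‖ₑ ^ p ≤ 1) (j : ℕ) :
    volume (lv a j) ≤ ENNReal.ofReal (2 * 2 ^ p * (2 : ℝ) ^ (-(p * j))) := by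
  have hp1 : (1 : ℝ) ≤ 2 ^ p := Real.one_le_rpow (by norm_num) hp.le
  cases j with
  | zero =>
    calc volume (lv a 0) ≤ volume (Icc (-1 : ℝ) 1) := measure_mono (lv_sub a 0)
      _ = ENNReal.ofReal 2 := by rw [Real.volume_Icc]; norm_num
      _ ≤ _ := by
          apply ENNReal.ofReal_le_ofReal
          simp only [Nat.cast_zero, mul_zero, neg_zero, Real.rpow_zero, mul_one]
          linarith
  | succ j =>
    have h1 : ENNReal.ofReal ((2 : ℝ) ^ (p * j)) * volume (lv a (j + 1)) ≤ 1 := by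
      refine le_trans ?_ hA
      rw [← setLIntegral_const]
      calc ∫⁻ _ in lv a (j + 1), ENNReal.ofReal ((2 : ℝ) ^ (p * j))
          ≤ ∫⁻ u in lv a (j + 1), ‖a u‖ₑ ^ p := by
            apply setLIntegral_mono' (lv_meas ha _)
            intro u hu
            rw [← ofReal_norm, ENNReal.ofReal_rpow_of_nonneg (norm_nonneg _) hp.le]
            apply ENNReal.ofReal_le_ofReal
            have h2 : (2 : ℝ) ^ j ≤ ‖a u‖ := hu.2.1
            calc (2 : ℝ) ^ (p * j) = ((2 : ℝ) ^ j) ^ p := by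
                  rw [← Real.rpow_natCast, ← Real.rpow_mul (by norm_num)]
                  congr 1
                  ring
              _ ≤ ‖a u‖ ^ p := Real.rpow_le_rpow (by positivity) h2 hp.le
        _ ≤ ∫⁻ u in Icc (-1 : ℝ) 1, ‖a u‖ₑ ^ p := lintegral_mono_set (lv_sub a _)
    have h3 : (0 : ℝ) < (2 : ℝ) ^ (p * j) := by positivity
    have h4 : volume (lv a (j + 1)) ≤ ENNReal.ofReal (((2 : ℝ) ^ (p * j))⁻¹) := by
      rw [ENNReal.ofReal_inv_of_pos h3]
      rw [← one_div]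
      rw [ENNReal.le_div_iff_mul_le (Or.inl (by simpa using h3)) (Or.inl ENNReal.ofReal_ne_top)]
      rw [mul_comm]
      exact h1
    refine h4.trans ?_
    apply ENNReal.ofReal_le_ofReal
    have h5 : (2 : ℝ) ^ (-(p * ((j + 1 : ℕ) : ℝ))) = (2 ^ p)⁻¹ * ((2 : ℝ) ^ (p * j))⁻¹ := by
      rw [← Real.rpow_neg (by norm_num), ← Real.rpow_neg (by norm_num),
        ← Real.rpow_add (by norm_num)]
      congr 1
      push_cast
      ring
    rw [h5]
    have h6 : 2 * 2 ^ p * ((2 ^ p)⁻¹ * ((2 : ℝ) ^ (p * j))⁻¹) = 2 * ((2 : ℝ) ^ (p * j))⁻¹ := by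
      field_simp
    rw [h6]
    have : (0 : ℝ) < ((2 : ℝ) ^ (p * j))⁻¹ := by positivity
    linarith

end Pool.Agent.Q85.HL
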