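import Mathlib
import Pool.Agent.Q85.HL.D
set_option autoImplicit false
set_option linter.unusedSectionVars false

/-! The strong mixed norm bound. -/

namespace Pool.Agent.Q85.HL

open MeasureTheory Set Complex
open Pool.Agent.TH277.HT
open scoped ENNReal NNReal

attribute [local irreducible] PP W E1

/-- the weights -/
noncomputable def wt (η : ℝ) (j : ℕ) : ℝ≥0∞ := ENNReal.ofReal ((2 : ℝ) ^ (-(η * j)))

lemma wt_ne (η : ℝ) (j : ℕ) : wt η j ≠ 0 := by
  unfold wt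
  have : (0 : ℝ) < (2 : ℝ) ^ (-(η * j)) := by positivity
  simpa using this

lemma wt_top (η : ℝ) (j : ℕ) : wt η j ≠ ⊤ := ENNReal.ofReal_ne_top

lemma wt_eq (η : ℝ) (j : ℕ) : wt η j = ENNReal.ofReal ((2 : ℝ) ^ (-η)) ^ j := by
  unfold wt
  rw [← ENNReal.ofReal_pow (by positivity), ← Real.rpow_natCast, ← Real.rpow_mul (by norm_num)]
  congr 2
  ring

lemma wt_sum {η : ℝ} (hη : 0 < η) : ∑' j, wt η j ≠ ⊤ := by
  simp only [wt_eq]
  rw [ENNReal.tsum_geometric]
  have h1 : ENNReal.ofReal ((2 : ℝ) ^ (-η)) < 1 := by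
    rw [ENNReal.ofReal_lt_one]
    exact Real.rpow_lt_one_of_one_lt_of_neg (by norm_num) (by linarith)
  rw [ne_eq, ENNReal.inv_eq_top]
  exact (tsub_pos_of_lt h1).ne'

lemma wt_rpow (η s : ℝ) (j : ℕ) : wt η j ^ s = ENNReal.ofReal ((2 : ℝ) ^ (-(η * s) * j)) := by
  unfold wt
  rw [ENNReal.ofReal_rpow_of_pos (by positivity), ← Real.rpow_mul (by norm_num)]
  congr 2
  ring

lemma L1_of_Lp {H : Type} [NormedAddCommGroup H] {a : ℝ → H} {p : ℝ} (hp : 1 ≤ p)
    (hA : ∫⁻ u in Icc (-1 : ℝ) 1, ‖a u‖ₑ ^ p ≤ 1) : ∫⁻ u in Icc (-1 : ℝ) 1, ‖a u‖ₑ ≠ ⊤ := by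
  have h1 : ∫⁻ u in Icc (-1 : ℝ) 1, ‖a u‖ₑ ≤ ∫⁻ u in Icc (-1 : ℝ) 1, (1 + ‖a u‖ₑ ^ p) := by
    apply lintegral_mono
    intro u
    simp only
    by_cases h : ‖a u‖ₑ ≤ 1
    · exact h.trans le_self_add
    · have h2 : (1 : ℝ≥0∞) ≤ ‖a u‖ₑ := (not_le.1 h).le
      refine le_trans ?_ le_add_self
      calc ‖a u‖ₑ = ‖a u‖ₑ ^ (1 : ℝ) := (ENNReal.rpow_one _).symm
        _ ≤ ‖a u‖ₑ ^ p := ENNReal.rpow_le_rpow_of_exponent_le h2 hp
  refine ne_top_of_le_ne_top ?_ h1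
  rw [lintegral_add_left measurable_const, setLIntegral_one, Real.volume_Icc]
  exact ENNReal.add_ne_top.2 ⟨ENNReal.ofReal_ne_top, ne_top_of_le_ne_top ENNReal.one_ne_top hA⟩

/-- The strong mixed norm bound. -/
theorem strong (q p : ℝ) (hq : 3 < q) (hp : q / (q - 2) < p) : ∃ C : ℝ≥0, ∀ (H : Type)
    [NormedAddCommGroup H] [InnerProductSpace ℂ H] [CompleteSpace H] (a : ℝ → H),
    StronglyMeasurable a → ∫⁻ u in Icc (-1 : ℝ) 1, ‖a u‖ₑ ^ p ≤ 1 → MX q a ≤ C := by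
  obtain ⟨C, hC⟩ := mixS q hq
  have hq2 : 0 < q - 2 := by linarith
  have hp1 : 1 < p := by
    refine lt_trans ?_ hp
    rw [one_lt_div hq2]
    linarith
  have hpq : q < p * (q - 2) := by rwa [div_lt_iff₀ hq2] at hp
  set κ : ℝ := p * (2 * q - 4) - 2 * q with hκ
  have hκ0 : 0 < κ := by rw [hκ]; linarith
  set η : ℝ := κ / (2 * (2 * q - 1)) with hη
  have hη0 : 0 < η := by
    have : 0 < 2 * q - 1 := by linarith
    positivity
  set K : ℝ := (2 * 2 ^ p) ^ (2 * q - 4) with hK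
  have hK0 : 0 < K := by positivity
  set Wt : ℝ≥0∞ := ∑' j, wt η j with hWt
  have hWtt : Wt ≠ ⊤ := wt_sum hη0
  set B : ℝ≥0∞ := Wt ^ (2 * (q - 1)) * (Wt ^ (2 - 1 : ℝ) *
    ∑' j : ℕ, C * ENNReal.ofReal K * wt (κ / 2) j) with hB
  have hBt : B ≠ ⊤ := by
    rw [hB, ENNReal.tsum_mul_left]
    have h1 : (0 : ℝ) ≤ 2 * (q - 1) := by linarith
    exact ENNReal.mul_ne_top (ENNReal.rpow_ne_top_of_nonneg h1 hWtt)
      (ENNReal.mul_ne_top (ENNReal.rpow_ne_top_of_nonneg (by norm_num) hWtt)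
        (ENNReal.mul_ne_top (ENNReal.mul_ne_top ENNReal.coe_ne_top ENNReal.ofReal_ne_top)
          (wt_sum (by linarith))))
  refine ⟨B.toNNReal, ?_⟩
  intro H _ _ _ a ha hA
  rw [ENNReal.coe_toNNReal hBt]
  have hL1 := L1_of_Lp hp1.le hA
  set c : ℕ → ℝ≥0∞ := wt η with hc
  have hm : ∀ (j : ℕ) (t : ℝ), Measurable fun x : ℝ => ‖E1 (pc a j) x t‖ₑ :=
    fun j t => (E1x_meas (pc_adm ha j).adm t).enorm
  set I : ℕ → ℝ → ℝ≥0∞ := fun j t => ∫⁻ x : ℝ, ‖E1 (pc a j) x t‖ₑ ^ q with hI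
  have hIm : ∀ j, Measurable (I j) := by
    intro j
    have h1 : Measurable fun r : ℝ × ℝ => ‖E1 (pc a j) r.2 r.1‖ₑ ^ q :=
      ((E1_meas (pc_adm ha j).adm).enorm.comp
        (by fun_prop : Measurable fun r : ℝ × ℝ => ((r.2, r.1) : ℝ × ℝ))).pow_const q
    exact h1.lintegral_prod_right'
  set d : ℕ → ℝ≥0∞ := fun j => c j ^ (1 - q) * ENNReal.ofReal (2 ^ j) ^ q with hd
  -- step 1 and 2
  have s2 : ∀ t, ∫⁻ x : ℝ, ‖E1 a x t‖ₑ ^ q ≤ Wt ^ (q - 1) * ∑' j, d j * I j t := by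
    intro t
    calc ∫⁻ x : ℝ, ‖E1 a x t‖ₑ ^ q
        ≤ ∫⁻ x : ℝ, Wt ^ (q - 1) * ∑' j, d j * ‖E1 (pc a j) x t‖ₑ ^ q := by
          apply lintegral_mono
          intro x
          simp only
          calc ‖E1 a x t‖ₑ ^ q ≤ (∑' j, ENNReal.ofReal (2 ^ j) * ‖E1 (pc a j) x t‖ₑ) ^ q :=
                ENNReal.rpow_le_rpow (E1_tsum_le ha hL1 x t) (by linarith)
            _ ≤ Wt ^ (q - 1) * ∑' j, c j ^ (1 - q) *
                (ENNReal.ofReal (2 ^ j) * ‖E1 (pc a j) x t‖ₑ) ^ q :=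
                jensen c _ q (by linarith) (wt_ne η) (wt_top η)
            _ = _ := by
                congr 1
                apply tsum_congr
                intro j
                rw [hd]
                simp only
                rw [ENNReal.mul_rpow_of_nonneg _ _ (by linarith : (0 : ℝ) ≤ q), mul_assoc]
      _ = Wt ^ (q - 1) * ∑' j, d j * I j t := by
          rw [lintegral_const_mul' _ _ (ENNReal.rpow_ne_top_of_nonneg (by linarith) hWtt),
            lintegral_tsum (fun j => (((hm j t).pow_const q).const_mul _).aemeasurable)]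
          congr 1
          apply tsum_congr
          intro j
          rw [lintegral_const_mul _ ((hm j t).pow_const q)]
  -- step 3
  have s3 : ∀ t, (∫⁻ x : ℝ, ‖E1 a x t‖ₑ ^ q) ^ (2 : ℝ) ≤ Wt ^ (2 * (q - 1)) *
      (Wt ^ (2 - 1 : ℝ) * ∑' j, c j ^ (1 - 2 : ℝ) * (d j ^ (2 : ℝ) * I j t ^ (2 : ℝ))) := by
    intro t
    calc (∫⁻ x : ℝ, ‖E1 a x t‖ₑ ^ q) ^ (2 : ℝ)
        ≤ (Wt ^ (q - 1) * ∑' j, d j * I j t) ^ (2 : ℝ) :=
          ENNReal.rpow_le_rpow (s2 t) (by norm_num)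
      _ = Wt ^ (2 * (q - 1)) * (∑' j, d j * I j t) ^ (2 : ℝ) := by
          rw [ENNReal.mul_rpow_of_nonneg _ _ (by norm_num), ← ENNReal.rpow_mul, mul_comm (q - 1)]
      _ ≤ Wt ^ (2 * (q - 1)) *
          (Wt ^ (2 - 1 : ℝ) * ∑' j, c j ^ (1 - 2 : ℝ) * (d j * I j t) ^ (2 : ℝ)) := by
          gcongr
          exact jensen c _ 2 (by norm_num) (wt_ne η) (wt_top η)
      _ = _ := by
          congr 2
          apply tsum_congr
          intro j
          rw [ENNReal.mul_rpow_of_nonneg _ _ (by norm_num : (0 : ℝ) ≤ 2)]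
  -- the coefficients
  have hcoef : ∀ j : ℕ, c j ^ (1 - 2 : ℝ) * d j ^ (2 : ℝ) * (C * volume (lv a j) ^ (2 * q - 4)) ≤
      C * ENNReal.ofReal K * wt (κ / 2) j := by
    intro j
    have e1 : volume (lv a j) ^ (2 * q - 4) ≤
        ENNReal.ofReal (K * (2 : ℝ) ^ (-(p * (2 * q - 4)) * j)) := by
      calc volume (lv a j) ^ (2 * q - 4)
          ≤ ENNReal.ofReal (2 * 2 ^ p * (2 : ℝ) ^ (-(p * j))) ^ (2 * q - 4) :=
            ENNReal.rpow_le_rpow (lv_vol ha p (by linarith) hA j) (by linarith)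
        _ = _ := by
            rw [ENNReal.ofReal_rpow_of_pos (by positivity)]
            congr 1
            rw [Real.mul_rpow (by positivity) (by positivity), ← hK,
              ← Real.rpow_mul (by norm_num)]
            congr 2
            ring
    have e2 : c j ^ (1 - 2 : ℝ) * d j ^ (2 : ℝ) =
        ENNReal.ofReal ((2 : ℝ) ^ ((η * (2 * q - 1) + 2 * q) * j)) := by
      rw [hd, hc]
      simp only
      rw [ENNReal.mul_rpow_of_nonneg _ _ (by norm_num : (0 : ℝ) ≤ 2), ← ENNReal.rpow_mul,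
        ← ENNReal.rpow_mul, ← mul_assoc, ← ENNReal.rpow_add _ _ (wt_ne η j) (wt_top η j),
        wt_rpow, ENNReal.ofReal_rpow_of_pos (by positivity), ← ENNReal.ofReal_mul (by positivity),
        ← Real.rpow_natCast, ← Real.rpow_mul (by norm_num), ← Real.rpow_add (by norm_num)]
      congr 2
      ring
    rw [e2]
    calc ENNReal.ofReal ((2 : ℝ) ^ ((η * (2 * q - 1) + 2 * q) * j)) *
          (C * volume (lv a j) ^ (2 * q - 4))
        ≤ ENNReal.ofReal ((2 : ℝ) ^ ((η * (2 * q - 1) + 2 * q) * j)) *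
          (C * ENNReal.ofReal (K * (2 : ℝ) ^ (-(p * (2 * q - 4)) * j))) := by gcongr
      _ = C * (ENNReal.ofReal ((2 : ℝ) ^ ((η * (2 * q - 1) + 2 * q) * j)) *
          ENNReal.ofReal (K * (2 : ℝ) ^ (-(p * (2 * q - 4)) * j))) := by ring
      _ = C * (ENNReal.ofReal K * wt (κ / 2) j) := by
          congr 1
          unfold wt
          rw [← ENNReal.ofReal_mul (by positivity), ← ENNReal.ofReal_mul hK0.le, mul_left_comm,
            ← Real.rpow_add (by norm_num)]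
          congr 3
          have h2 : 2 * q - 1 ≠ 0 := by
            have : 0 < 2 * q - 1 := by linarith
            exact this.ne'
          have h3 : η * (2 * q - 1) = κ / 2 := by
            rw [hη]
            field_simp
          rw [h3, hκ]
          ring
      _ = _ := by ring
  calc MX q a ≤ ∫⁻ t : ℝ, Wt ^ (2 * (q - 1)) *
        (Wt ^ (2 - 1 : ℝ) * ∑' j, c j ^ (1 - 2 : ℝ) * (d j ^ (2 : ℝ) * I j t ^ (2 : ℝ))) :=
        lintegral_mono s3
    _ = Wt ^ (2 * (q - 1)) * (Wt ^ (2 - 1 : ℝ) *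
        ∑' j, c j ^ (1 - 2 : ℝ) * d j ^ (2 : ℝ) * MX q (pc a j)) := by
        rw [lintegral_const_mul' _ _ (ENNReal.rpow_ne_top_of_nonneg (by linarith) hWtt),
          lintegral_const_mul' _ _ (ENNReal.rpow_ne_top_of_nonneg (by norm_num) hWtt),
          lintegral_tsum (fun j => ((((hIm j).pow_const (2 : ℝ)).const_mul _).const_mul _).aemeasurable)]
        congr 2
        apply tsum_congr
        intro j
        rw [lintegral_const_mul _ (((hIm j).pow_const (2 : ℝ)).const_mul _),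
          lintegral_const_mul _ ((hIm j).pow_const (2 : ℝ)), ← mul_assoc]
        rfl
    _ ≤ B := by
        rw [hB]
        refine mul_le_mul' le_rfl (mul_le_mul' le_rfl (ENNReal.tsum_le_tsum fun j => ?_))
        refine le_trans ?_ (hcoef j)
        exact mul_le_mul' le_rfl (hC H (pc a j) (lv a j) (pc_adm ha j))

end Pool.Agent.Q85.HL
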