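import Mathlib
import Pool.Agent.Q85.HL.E
set_option autoImplicit false
set_option linter.unusedSectionVars false

/-! Homogeneity, the product bound. -/

namespace Pool.Agent.Q85.HL

open MeasureTheory Set Complex
open Pool.Agent.TH277.HT
open scoped ENNReal NNReal

variable {H : Type} [NormedAddCommGroup H] [InnerProductSpace ℂ H] [CompleteSpace H]

lemma E1_smul (c : ℂ) (a : ℝ → H) (x t : ℝ) : E1 (fun u => c • a u) x t = c • E1 a x t := by
  unfold E1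
  rw [← integral_smul]
  congr 1
  ext u
  rw [smul_comm]

lemma MX_smul (q : ℝ) (hq : 0 < q) (c : ℂ) (a : ℝ → H) :
    MX q (fun u => c • a u) = ‖c‖ₑ ^ (2 * q) * MX q a := by
  unfold MX
  have h1 : ∀ t : ℝ, (∫⁻ x : ℝ, ‖E1 (fun u => c • a u) x t‖ₑ ^ q) ^ (2 : ℝ) =
      ‖c‖ₑ ^ (2 * q) * (∫⁻ x : ℝ, ‖E1 a x t‖ₑ ^ q) ^ (2 : ℝ) := by
    intro t
    have h2 : ∀ x : ℝ, ‖E1 (fun u => c • a u) x t‖ₑ ^ q = ‖c‖ₑ ^ q * ‖E1 a x t‖ₑ ^ q := by
      intro x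
      rw [E1_smul, enorm_smul, ENNReal.mul_rpow_of_nonneg _ _ hq.le]
    simp only [h2]
    rw [lintegral_const_mul' _ _ (ENNReal.rpow_ne_top_of_nonneg hq.le enorm_ne_top),
      ENNReal.mul_rpow_of_nonneg _ _ (by norm_num), ← ENNReal.rpow_mul, mul_comm q]
  simp only [h1]
  rw [lintegral_const_mul' _ _ (ENNReal.rpow_ne_top_of_nonneg (by linarith) enorm_ne_top)]

/-- The strong mixed norm bound, homogeneous form. -/
theorem strong' (q p : ℝ) (hq : 3 < q) (hp : q / (q - 2) < p) : ∃ C : ℝ≥0, ∀ (H : Type)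
    [NormedAddCommGroup H] [InnerProductSpace ℂ H] [CompleteSpace H] (a : ℝ → H),
    StronglyMeasurable a → ∫⁻ u in Icc (-1 : ℝ) 1, ‖a u‖ₑ ^ p ≠ ⊤ →
    MX q a ≤ C * (∫⁻ u in Icc (-1 : ℝ) 1, ‖a u‖ₑ ^ p) ^ (2 * q / p) := by
  obtain ⟨C, hC⟩ := strong q p hq hp
  have hq2 : 0 < q - 2 := by linarith
  have hp1 : 1 < p := by
    refine lt_trans ?_ hp
    rw [one_lt_div hq2]
    linarith
  have hp0 : 0 < p := by linarith
  refine ⟨C, ?_⟩
  intro H _ _ _ a ha hA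
  set A : ℝ≥0∞ := ∫⁻ u in Icc (-1 : ℝ) 1, ‖a u‖ₑ ^ p with hAdef
  by_cases hz : A = 0
  · have h1 : ∀ x t, E1 a x t = 0 := by
      intro x t
      unfold E1
      apply integral_eq_zero_of_ae
      have h2 := (lintegral_eq_zero_iff (ha.enorm.pow_const p)).1 (hAdef.symm.trans hz)
      filter_upwards [h2] with u hu
      have h3 : ‖a u‖ₑ = 0 := by
        have h4 : ‖a u‖ₑ ^ p = 0 := hu
        rcases (ENNReal.rpow_eq_zero_iff.1 h4) with h | h
        · exact h.1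
        · exact absurd h.1 enorm_ne_top
      rw [enorm_eq_zero.1 h3, smul_zero]
      rfl
    have h2 : MX q a = 0 := by
      unfold MX
      simp only [h1, enorm_zero]
      rw [ENNReal.zero_rpow_of_pos (by linarith), lintegral_zero,
        ENNReal.zero_rpow_of_pos (by norm_num), lintegral_zero]
    rw [h2]
    exact zero_le
  · set r : ℝ := A.toReal with hr
    have hr0 : 0 < r := ENNReal.toReal_pos hz hA
    have hAr : A = ENNReal.ofReal r := (ENNReal.ofReal_toReal hA).symm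
    set c : ℂ := ((r ^ (-(1 / p)) : ℝ) : ℂ) with hc
    have hcn : ‖c‖ₑ = ENNReal.ofReal (r ^ (-(1 / p))) := by
      rw [← ofReal_norm, hc, Complex.norm_real, Real.norm_of_nonneg (by positivity)]
    have h1 : ∫⁻ u in Icc (-1 : ℝ) 1, ‖c • a u‖ₑ ^ p = 1 := by
      have h2 : ∀ u, ‖c • a u‖ₑ ^ p = ‖c‖ₑ ^ p * ‖a u‖ₑ ^ p := by
        intro u
        rw [enorm_smul, ENNReal.mul_rpow_of_nonneg _ _ hp0.le]
      simp only [h2]
      rw [lintegral_const_mul' _ _ (ENNReal.rpow_ne_top_of_nonneg hp0.le enorm_ne_top), ← hAdef,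
        hcn, hAr, ENNReal.ofReal_rpow_of_pos (by positivity), ← ENNReal.ofReal_mul (by positivity),
        ← Real.rpow_mul hr0.le]
      rw [show -(1 / p) * p = -1 by field_simp, Real.rpow_neg_one, inv_mul_cancel₀ hr0.ne',
        ENNReal.ofReal_one]
    have h3 := hC H (fun u => c • a u) (ha.const_smul c) h1.le
    rw [MX_smul q (by linarith)] at h3
    have h4 : MX q a = ENNReal.ofReal (r ^ (2 * q / p)) * (‖c‖ₑ ^ (2 * q) * MX q a) := by
      rw [← mul_assoc, hcn, ENNReal.ofReal_rpow_of_pos (by positivity),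
        ← ENNReal.ofReal_mul (by positivity), ← Real.rpow_mul hr0.le, ← Real.rpow_add hr0]
      rw [show 2 * q / p + -(1 / p) * (2 * q) = 0 by ring, Real.rpow_zero, ENNReal.ofReal_one,
        one_mul]
    rw [h4, hAr, ENNReal.ofReal_rpow_of_pos hr0, mul_comm (C : ℝ≥0∞)]
    exact mul_le_mul' le_rfl h3

lemma E1_cont {a : ℝ → H} (ha : IntegrableOn a (Icc (-1 : ℝ) 1)) :
    Continuous fun r : ℝ × ℝ => E1 a r.1 r.2 := by
  unfold E1
  apply continuous_of_dominated (bound := fun u => ‖a u‖)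
  · intro r
    exact ((ch_cont.comp (by fun_prop)).aestronglyMeasurable).smul ha.aestronglyMeasurable
  · intro r
    refine ae_of_all _ fun u => ?_
    rw [norm_smul, ch_norm, one_mul]
  · exact ha.norm
  · refine ae_of_all _ fun u => ?_
    exact (ch_cont.comp (by fun_prop)).smul continuous_const

lemma lint_scale (f : ℝ → ℝ≥0∞) (hf : Measurable f) {c : ℝ} (hc : c ≠ 0) :
    ∫⁻ x : ℝ, f (c * x) = ENNReal.ofReal |c⁻¹| * ∫⁻ x : ℝ, f x := by
  have h1 := Real.map_volume_mul_left hc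
  have h2 : ∫⁻ x : ℝ, f (c * x) = ∫⁻ x, f x ∂(Measure.map (c * ·) volume) :=
    (lintegral_map hf (by fun_prop)).symm
  rw [h2, h1, lintegral_smul_measure, smul_eq_mul]

attribute [local irreducible] E1

/-- The product bound. -/
theorem prod_bd (q : ℝ) (hq : 0 < q) {a b : ℝ → H} (ha : IntegrableOn a (Icc (-1 : ℝ) 1))
    (hb : IntegrableOn b (Icc (-1 : ℝ) 1)) (s : ℝ) (hs : 0 < s) :
    ∫⁻ y : (ℝ × ℝ) × ℝ, (‖E1 a (s * y.1.1) (s * y.2)‖ₑ *
      ‖E1 b (-s * y.1.2) (-s * y.2)‖ₑ) ^ q ≤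
      ENNReal.ofReal (s⁻¹ ^ 3) * ((MX q a) ^ (1 / 2 : ℝ) * (MX q b) ^ (1 / 2 : ℝ)) := by
  have ma : Measurable fun r : ℝ × ℝ => ‖E1 a r.1 r.2‖ₑ ^ q :=
    (E1_cont ha).enorm.measurable.pow_const q
  have mb : Measurable fun r : ℝ × ℝ => ‖E1 b r.1 r.2‖ₑ ^ q :=
    (E1_cont hb).enorm.measurable.pow_const q
  set I : ℝ → ℝ≥0∞ := fun t => ∫⁻ x : ℝ, ‖E1 a x t‖ₑ ^ q with hI
  set J : ℝ → ℝ≥0∞ := fun t => ∫⁻ x : ℝ, ‖E1 b x t‖ₑ ^ q with hJ
  have hIm : Measurable I :=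
    (ma.comp (by fun_prop : Measurable fun r : ℝ × ℝ => ((r.2, r.1) : ℝ × ℝ))).lintegral_prod_right'
  have hJm : Measurable J :=
    (mb.comp (by fun_prop : Measurable fun r : ℝ × ℝ => ((r.2, r.1) : ℝ × ℝ))).lintegral_prod_right'
  have hs' : |s⁻¹| = s⁻¹ := abs_of_pos (by positivity)
  have hs2 : |(-s)⁻¹| = s⁻¹ := by rw [inv_neg, abs_neg, hs']
  have h1 : ∀ t : ℝ, ∫⁻ x : ℝ × ℝ, (‖E1 a (s * x.1) (s * t)‖ₑ *
      ‖E1 b (-s * x.2) (-s * t)‖ₑ) ^ q = ENNReal.ofReal (s⁻¹ ^ 2) * (I (s * t) * J (-s * t)) := by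
    intro t
    have e1 : Measurable fun x : ℝ => ‖E1 a x (s * t)‖ₑ ^ q :=
      ma.comp (by fun_prop : Measurable fun x : ℝ => ((x, s * t) : ℝ × ℝ))
    have e2 : Measurable fun x : ℝ => ‖E1 b x (-s * t)‖ₑ ^ q :=
      mb.comp (by fun_prop : Measurable fun x : ℝ => ((x, -s * t) : ℝ × ℝ))
    calc ∫⁻ x : ℝ × ℝ, (‖E1 a (s * x.1) (s * t)‖ₑ * ‖E1 b (-s * x.2) (-s * t)‖ₑ) ^ q
        = ∫⁻ x : ℝ × ℝ, ‖E1 a (s * x.1) (s * t)‖ₑ ^ q * ‖E1 b (-s * x.2) (-s * t)‖ₑ ^ q := by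
          apply lintegral_congr
          intro x
          rw [ENNReal.mul_rpow_of_nonneg _ _ hq.le]
      _ = (∫⁻ x : ℝ, ‖E1 a (s * x) (s * t)‖ₑ ^ q) * ∫⁻ x : ℝ, ‖E1 b (-s * x) (-s * t)‖ₑ ^ q := by
          rw [Measure.volume_eq_prod]
          exact lintegral_prod_mul (e1.comp (by fun_prop : Measurable fun x : ℝ => s * x)).aemeasurable
            (e2.comp (by fun_prop : Measurable fun x : ℝ => -s * x)).aemeasurable
      _ = (ENNReal.ofReal s⁻¹ * I (s * t)) * (ENNReal.ofReal s⁻¹ * J (-s * t)) := by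
          rw [lint_scale (fun x => ‖E1 a x (s * t)‖ₑ ^ q) e1 hs.ne',
            lint_scale (fun x => ‖E1 b x (-s * t)‖ₑ ^ q) e2 (neg_ne_zero.2 hs.ne'), hs', hs2]
      _ = _ := by
          rw [ENNReal.ofReal_pow (by positivity)]
          ring
  have hmm : Measurable fun y : (ℝ × ℝ) × ℝ => (‖E1 a (s * y.1.1) (s * y.2)‖ₑ *
      ‖E1 b (-s * y.1.2) (-s * y.2)‖ₑ) ^ q := by
    apply Measurable.pow_const
    have w1 : Measurable fun y : (ℝ × ℝ) × ℝ => ‖E1 a (s * y.1.1) (s * y.2)‖ₑ :=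
      (E1_cont ha).enorm.measurable.comp
        (by fun_prop : Measurable fun y : (ℝ × ℝ) × ℝ => ((s * y.1.1, s * y.2) : ℝ × ℝ))
    have w2 : Measurable fun y : (ℝ × ℝ) × ℝ => ‖E1 b (-s * y.1.2) (-s * y.2)‖ₑ :=
      (E1_cont hb).enorm.measurable.comp
        (by fun_prop : Measurable fun y : (ℝ × ℝ) × ℝ => ((-s * y.1.2, -s * y.2) : ℝ × ℝ))
    exact w1.mul w2
  have h2 : ∫⁻ t : ℝ, I t * J (-t) ≤ (MX q a) ^ (1 / 2 : ℝ) * (MX q b) ^ (1 / 2 : ℝ) := by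
    have hh : (2 : ℝ).HolderConjugate 2 := Real.HolderConjugate.two_two
    have h3 := ENNReal.lintegral_mul_le_Lp_mul_Lq volume hh (f := I) (g := fun t => J (-t))
      hIm.aemeasurable (hJm.comp measurable_neg).aemeasurable
    refine h3.trans (le_of_eq ?_)
    congr 1
    congr 1
    exact lintegral_neg_eq_self (fun t : ℝ => J t ^ (2 : ℝ))
  calc ∫⁻ y : (ℝ × ℝ) × ℝ, (‖E1 a (s * y.1.1) (s * y.2)‖ₑ *
        ‖E1 b (-s * y.1.2) (-s * y.2)‖ₑ) ^ q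
      = ∫⁻ t : ℝ, ∫⁻ x : ℝ × ℝ, (‖E1 a (s * x.1) (s * t)‖ₑ *
        ‖E1 b (-s * x.2) (-s * t)‖ₑ) ^ q := by
        rw [Measure.volume_eq_prod, lintegral_prod_symm _ hmm.aemeasurable]
    _ = ∫⁻ t : ℝ, ENNReal.ofReal (s⁻¹ ^ 2) * (I (s * t) * J (-s * t)) := by simp only [h1]
    _ = ENNReal.ofReal (s⁻¹ ^ 2) * ∫⁻ t : ℝ, I (s * t) * J (-s * t) := by
        rw [lintegral_const_mul' _ _ ENNReal.ofReal_ne_top]
    _ = ENNReal.ofReal (s⁻¹ ^ 2) * (ENNReal.ofReal s⁻¹ * ∫⁻ t : ℝ, I t * J (-t)) := by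
        congr 1
        have h4 := lint_scale (fun t => I t * J (-t)) (hIm.mul (hJm.comp measurable_neg)) hs.ne'
        rw [hs'] at h4
        rw [← h4]
        apply lintegral_congr
        intro t
        rw [neg_mul]
    _ ≤ ENNReal.ofReal (s⁻¹ ^ 2) * (ENNReal.ofReal s⁻¹ *
        ((MX q a) ^ (1 / 2 : ℝ) * (MX q b) ^ (1 / 2 : ℝ))) := by gcongr
    _ = _ := by
        rw [← mul_assoc, ← ENNReal.ofReal_mul (by positivity)]
        congr 2

end Pool.Agent.Q85.HL
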