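import Mathlib
import Pool.Agent.Q85.HL.F
set_option autoImplicit false
set_option linter.unusedSectionVars false

/-! The extension operator in the plane, rotations and sums. -/

namespace Pool.Agent.Q85.HL

open MeasureTheory Set Complex
open Pool.Agent.TH277.HT
open scoped ENNReal NNReal InnerProductSpace

/-- the phase -/
noncomputable def ph (x : ℝ × ℝ) (y : (ℝ × ℝ) × ℝ) : ℝ :=
  x.1 * y.1.1 + x.2 * y.1.2 + (x.1 ^ 2 + x.2 ^ 2) * y.2

/-- the extension operator of the paraboloid in `ℝ³` -/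
noncomputable def EP (f : ℝ × ℝ → ℂ) (y : (ℝ × ℝ) × ℝ) : ℂ :=
  ∫ x : ℝ × ℝ, cexp (-(I * (ph x y : ℂ))) * f x

lemma cexp_norm (θ : ℝ) : ‖cexp (-(I * (θ : ℂ)))‖ = 1 := by
  rw [show -(I * (θ : ℂ)) = ((-θ : ℝ) : ℂ) * I by push_cast; ring]
  exact norm_exp_ofReal_mul_I _

lemma EP_cont {f : ℝ × ℝ → ℂ} (hf : Integrable f) : Continuous (EP f) := by
  unfold EP
  apply continuous_of_dominated (bound := fun u => ‖f u‖)
  · intro y
    refine AEStronglyMeasurable.mul ?_ hf.aestronglyMeasurable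
    apply Continuous.aestronglyMeasurable
    unfold ph
    fun_prop
  · intro y
    refine ae_of_all _ fun x => ?_
    rw [norm_mul, cexp_norm, one_mul]
  · exact hf.norm
  · refine ae_of_all _ fun x => ?_
    unfold ph
    fun_prop

lemma E1_full {H : Type} [NormedAddCommGroup H] [InnerProductSpace ℂ H] {a : ℝ → H}
    (h0 : ∀ u, u ∉ Icc (-1 : ℝ) 1 → a u = 0) (x t : ℝ) :
    E1 a x t = ∫ u, ch (u * x + u ^ 2 * t) • a u := by
  unfold E1
  apply setIntegral_eq_integral_of_forall_compl_eq_zero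
  intro u hu
  rw [h0 u hu, smul_zero]

section

variable {H : Type} [NormedAddCommGroup H] [InnerProductSpace ℂ H] [CompleteSpace H]

lemma inner_int {F G : ℝ → H} (hF : Integrable F) (hG : Integrable G) :
    ∫ x : ℝ × ℝ, ⟪F x.1, G x.2⟫_ℂ = ⟪∫ u, F u, ∫ v, G v⟫_ℂ := by
  have hi : Integrable (fun x : ℝ × ℝ => ⟪F x.1, G x.2⟫_ℂ)
      ((volume : Measure ℝ).prod (volume : Measure ℝ)) := by
    refine Integrable.mono' (hF.norm.mul_prod hG.norm) ?_ ?_
    · exact (hF.aestronglyMeasurable.comp_fst).inner (hG.aestronglyMeasurable.comp_snd)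
    · exact ae_of_all _ fun x => norm_inner_le_norm _ _
  rw [Measure.volume_eq_prod, integral_prod _ hi]
  simp only
  have h1 : ∀ u, ∫ v, ⟪F u, G v⟫_ℂ = ⟪F u, ∫ v, G v⟫_ℂ := fun u => integral_inner hG (F u)
  simp only [h1]
  have h2 : ∫ u, ⟪∫ v, G v, F u⟫_ℂ = ⟪∫ v, G v, ∫ u, F u⟫_ℂ := integral_inner hF (∫ v, G v)
  have h3 : ∀ u, ⟪F u, ∫ v, G v⟫_ℂ = (starRingEnd ℂ) ⟪∫ v, G v, F u⟫_ℂ := fun u =>
    (inner_conj_symm _ _).symm
  simp only [h3]
  rw [integral_conj, h2, inner_conj_symm]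

/-- the factorization of the extension of a tensor kernel -/
lemma EP_tens {a b : ℝ → H} (ha : Integrable a) (hb : Integrable b)
    (ha0 : ∀ u, u ∉ Icc (-1 : ℝ) 1 → a u = 0) (hb0 : ∀ u, u ∉ Icc (-1 : ℝ) 1 → b u = 0)
    (y : (ℝ × ℝ) × ℝ) :
    EP (fun x => ⟪a x.1, b x.2⟫_ℂ) y =
      ⟪E1 a ((2 * Real.pi)⁻¹ * y.1.1) ((2 * Real.pi)⁻¹ * y.2),
        E1 b (-(2 * Real.pi)⁻¹ * y.1.2) (-(2 * Real.pi)⁻¹ * y.2)⟫_ℂ := by
  have hi : ∀ (c : ℝ → H) (x t : ℝ), Integrable c →
      Integrable fun u => ch (u * x + u ^ 2 * t) • c u := by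
    intro c x t hc
    refine Integrable.mono hc ?_ ?_
    · exact ((ch_cont.comp (by fun_prop)).aestronglyMeasurable).smul hc.aestronglyMeasurable
    · refine ae_of_all _ fun u => ?_
      rw [norm_smul, ch_norm, one_mul]
  rw [E1_full ha0, E1_full hb0, ← inner_int (hi a _ _ ha) (hi b _ _ hb)]
  unfold EP
  apply integral_congr_ae
  refine ae_of_all _ fun x => ?_
  simp only
  rw [inner_smul_left, inner_smul_right, ch_conj, ← mul_assoc, ← ch_add]
  congr 1
  unfold ch ph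
  congr 1
  have hpi : (Real.pi : ℂ) ≠ 0 := by exact_mod_cast Real.pi_ne_zero
  push_cast
  field_simp
  ring

end

/-- the rotation -/
def rot (c s : ℝ) (x : ℝ × ℝ) : ℝ × ℝ := (c * x.1 + s * x.2, -s * x.1 + c * x.2)

lemma rot_meas (c s : ℝ) : Measurable (rot c s) := by
  unfold rot
  fun_prop

lemma rot_inj {c s : ℝ} (h : c ^ 2 + s ^ 2 = 1) : Function.Injective (rot c s) := by
  intro x y hxy
  unfold rot at hxy
  have h1 : c * x.1 + s * x.2 = c * y.1 + s * y.2 := congrArg Prod.fst hxy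
  have h2 : -s * x.1 + c * x.2 = -s * y.1 + c * y.2 := congrArg Prod.snd hxy
  have h3 : x.1 = y.1 := by linear_combination c * h1 - s * h2 + (-x.1 + y.1) * h
  have h4 : x.2 = y.2 := by linear_combination s * h1 + c * h2 + (-x.2 + y.2) * h
  exact Prod.ext h3 h4

lemma rot_mp {c s : ℝ} (h : c ^ 2 + s ^ 2 = 1) : MeasurePreserving (rot c s) := by
  refine ⟨rot_meas c s, ?_⟩
  set L : (ℝ × ℝ) →ₗ[ℝ] (ℝ × ℝ) :=
    Matrix.toLin (Module.Basis.finTwoProd ℝ) (Module.Basis.finTwoProd ℝ) !![c, s; -s, c] with hL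
  have h1 : (L : ℝ × ℝ → ℝ × ℝ) = rot c s := by
    ext x
    · simp [hL, rot, Matrix.toLin_finTwoProd_apply]
    · simp [hL, rot, Matrix.toLin_finTwoProd_apply]
  have h2 : LinearMap.det L = 1 := by
    rw [hL, LinearMap.det_toLin, Matrix.det_fin_two_of]
    linear_combination h
  have h3 := Measure.map_linearMap_addHaar_eq_smul_addHaar (volume : Measure (ℝ × ℝ))
    (f := L) (by rw [h2]; exact one_ne_zero)
  rw [h1] at h3
  rw [h3, h2]
  simp

lemma ph_rot {c s : ℝ} (h : c ^ 2 + s ^ 2 = 1) (x : ℝ × ℝ) (y : (ℝ × ℝ) × ℝ) :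
    ph (rot c s x) (rot c s y.1, y.2) = ph x y := by
  unfold ph rot
  simp only
  linear_combination (x.1 * y.1.1 + x.2 * y.1.2 + (x.1 ^ 2 + x.2 ^ 2) * y.2) * h

lemma EP_rot {c s : ℝ} (h : c ^ 2 + s ^ 2 = 1) (g : ℝ × ℝ → ℂ) (y : (ℝ × ℝ) × ℝ) :
    EP (fun x => g (rot c s x)) y = EP g (rot c s y.1, y.2) := by
  unfold EP
  rw [← (rot_mp h).integral_comp ((rot_meas c s).measurableEmbedding (rot_inj h))
    (fun x => cexp (-(I * (ph x (rot c s y.1, y.2) : ℂ))) * g x)]
  simp only [ph_rot h]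

lemma EP_rot_lint {c s : ℝ} (h : c ^ 2 + s ^ 2 = 1) {g : ℝ × ℝ → ℂ} (hg : Integrable g)
    (q : ℝ) : ∫⁻ y, ‖EP (fun x => g (rot c s x)) y‖ₑ ^ q = ∫⁻ y, ‖EP g y‖ₑ ^ q := by
  simp only [EP_rot h]
  have h1 : MeasurePreserving (Prod.map (rot c s) (id : ℝ → ℝ))
      ((volume : Measure (ℝ × ℝ)).prod volume) ((volume : Measure (ℝ × ℝ)).prod volume) :=
    (rot_mp h).prod (MeasurePreserving.id _)
  rw [Measure.volume_eq_prod]
  exact h1.lintegral_comp ((EP_cont hg).enorm.measurable.pow_const q)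

/-- the weighted Jensen inequality for series, with zero weights -/
lemma jensen0 (c y : ℕ → ℝ≥0∞) (s : ℝ) (hs : 1 < s) (hc0 : ∀ j, c j = 0 → y j = 0)
    (hct : ∀ j, c j ≠ ⊤) :
    (∑' j, y j) ^ s ≤ (∑' j, c j) ^ (s - 1) * ∑' j, c j ^ (1 - s) * y j ^ s := by
  have hs0 : 0 < s := by linarith
  have hs1 : 0 < s - 1 := by linarith
  set r : ℝ := s / (s - 1) with hr
  have hr0 : 0 < r := by positivity
  have hpq : r.HolderConjugate s := by
    rw [Real.holderConjugate_iff]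
    constructor
    · rw [hr, one_lt_div hs1]
      linarith
    · rw [hr]
      field_simp
      ring
  have h1 := ENNReal.lintegral_mul_le_Lp_mul_Lq (Measure.count : Measure ℕ) hpq
    (f := fun j => c j ^ (1 / r)) (g := fun j => c j ^ (-(1 / r)) * y j)
    (measurable_of_countable _).aemeasurable (measurable_of_countable _).aemeasurable
  rw [lintegral_count, lintegral_count, lintegral_count] at h1
  have h2 : ∀ j, ((fun j => c j ^ (1 / r)) * fun j => c j ^ (-(1 / r)) * y j) j = y j := by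
    intro j
    simp only [Pi.mul_apply]
    by_cases hj : c j = 0
    · rw [hc0 j hj, mul_zero, mul_zero]
    · rw [← mul_assoc, ← ENNReal.rpow_add _ _ hj (hct j), add_neg_cancel, ENNReal.rpow_zero,
        one_mul]
  have h3 : ∀ j, (c j ^ (1 / r)) ^ r = c j := by
    intro j
    rw [← ENNReal.rpow_mul, one_div_mul_cancel hr0.ne', ENNReal.rpow_one]
  have h4 : ∀ j, (c j ^ (-(1 / r)) * y j) ^ s = c j ^ (1 - s) * y j ^ s := by
    intro j
    rw [ENNReal.mul_rpow_of_nonneg _ _ hs0.le, ← ENNReal.rpow_mul]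
    congr 2
    rw [hr]
    field_simp
    ring
  simp only [h2, h3, h4] at h1
  calc (∑' j, y j) ^ s ≤ ((∑' j, c j) ^ (1 / r) * (∑' j, c j ^ (1 - s) * y j ^ s) ^ (1 / s)) ^ s := by
        gcongr
    _ = _ := by
        rw [ENNReal.mul_rpow_of_nonneg _ _ hs0.le, ← ENNReal.rpow_mul, ← ENNReal.rpow_mul,
          one_div_mul_cancel hs0.ne', ENNReal.rpow_one]
        congr 2
        rw [hr]
        field_simp

/-- sums of kernels -/
theorem sum_bd (q : ℝ) (hq : 1 < q) (C : ℝ≥0∞) (w : ℕ → ℝ≥0∞) (g : ℕ → ℝ × ℝ → ℂ)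
    (hg : ∀ k, Integrable (g k)) (hL1 : ∀ k, ∫⁻ x, ‖g k x‖ₑ ≤ w k)
    (hE : ∀ k, ∫⁻ y, ‖EP (g k) y‖ₑ ^ q ≤ C * w k ^ q) (hw : ∑' k, w k ≠ ⊤)
    (f : ℝ × ℝ → ℂ) (hf : ∀ᵐ x, f x = ∑' k, g k x) :
    ∫⁻ y, ‖EP f y‖ₑ ^ q ≤ C * (∑' k, w k) ^ q := by
  have hwt : ∀ k, w k ≠ ⊤ := fun k => ENNReal.ne_top_of_tsum_ne_top hw k
  have h1 : ∀ y, ‖EP f y‖ₑ ≤ ∑' k, ‖EP (g k) y‖ₑ := by
    intro y
    have e1 : EP f y = ∑' k, EP (g k) y := by
      unfold EP
      rw [← integral_tsum]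
      · apply integral_congr_ae
        filter_upwards [hf] with x hx
        rw [hx, tsum_mul_left]
      · intro k
        refine AEStronglyMeasurable.mul ?_ (hg k).aestronglyMeasurable
        apply Continuous.aestronglyMeasurable
        unfold ph
        fun_prop
      · refine ne_top_of_le_ne_top hw (ENNReal.tsum_le_tsum fun k => ?_)
        refine le_trans (le_of_eq ?_) (hL1 k)
        apply lintegral_congr
        intro x
        rw [enorm_mul, ← ofReal_norm (cexp _), cexp_norm, ENNReal.ofReal_one, one_mul]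
    rw [e1]
    exact enorm_tsum_le_tsum_enorm
  have h0 : ∀ k, w k = 0 → ∀ y, ‖EP (g k) y‖ₑ = 0 := by
    intro k hk y
    have e1 : ∫⁻ x, ‖g k x‖ₑ = 0 := le_antisymm ((hL1 k).trans hk.le) zero_le
    rw [lintegral_eq_zero_iff' (hg k).aestronglyMeasurable.enorm] at e1
    have e2 : EP (g k) y = 0 := by
      unfold EP
      apply integral_eq_zero_of_ae
      filter_upwards [e1] with x hx
      have e3 : g k x = 0 := enorm_eq_zero.1 hx
      rw [e3, mul_zero]
      rfl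
    rw [e2, enorm_zero]
  set Wt : ℝ≥0∞ := ∑' k, w k with hWt
  calc ∫⁻ y, ‖EP f y‖ₑ ^ q
      ≤ ∫⁻ y, Wt ^ (q - 1) * ∑' k, w k ^ (1 - q) * ‖EP (g k) y‖ₑ ^ q := by
        apply lintegral_mono
        intro y
        simp only
        exact (ENNReal.rpow_le_rpow (h1 y) (by linarith)).trans
          (jensen0 w _ q hq (fun k hk => h0 k hk y) hwt)
    _ = Wt ^ (q - 1) * ∑' k, w k ^ (1 - q) * ∫⁻ y, ‖EP (g k) y‖ₑ ^ q := by
        have hm : ∀ k, Measurable fun y => ‖EP (g k) y‖ₑ ^ q := fun k =>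
          (EP_cont (hg k)).enorm.measurable.pow_const q
        rw [lintegral_const_mul' _ _ (ENNReal.rpow_ne_top_of_nonneg (by linarith) hw),
          lintegral_tsum (fun k => ((hm k).const_mul _).aemeasurable)]
        congr 1
        apply tsum_congr
        intro k
        rw [lintegral_const_mul _ (hm k)]
    _ ≤ Wt ^ (q - 1) * ∑' k, C * w k := by
        refine mul_le_mul' le_rfl (ENNReal.tsum_le_tsum fun k => ?_)
        by_cases hk : w k = 0
        · have e1 : ∫⁻ y, ‖EP (g k) y‖ₑ ^ q = 0 := by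
            simp only [h0 k hk]
            rw [ENNReal.zero_rpow_of_pos (by linarith), lintegral_zero]
          rw [e1, mul_zero]
          exact zero_le
        · calc w k ^ (1 - q) * ∫⁻ y, ‖EP (g k) y‖ₑ ^ q ≤ w k ^ (1 - q) * (C * w k ^ q) := by
                gcongr
                exact hE k
            _ = C * (w k ^ (1 - q) * w k ^ q) := by ring
            _ = C * w k := by
                rw [← ENNReal.rpow_add _ _ hk (hwt k), sub_add_cancel, ENNReal.rpow_one]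
    _ = C * Wt ^ q := by
        rw [ENNReal.tsum_mul_left, ← hWt]
        rw [show C * Wt ^ q = Wt ^ (q - 1) * (C * Wt) from ?_]
        by_cases hz : Wt = 0
        · rw [hz, mul_zero, mul_zero, ENNReal.zero_rpow_of_pos (by linarith), mul_zero]
        · calc C * Wt ^ q = C * (Wt ^ (q - 1) * Wt ^ (1 : ℝ)) := by
                rw [← ENNReal.rpow_add _ _ hz hw, sub_add_cancel]
            _ = _ := by
                rw [ENNReal.rpow_one]
                ring

end Pool.Agent.Q85.HL
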