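import Mathlib
import Pool.Agent.Q85.HL.G
set_option autoImplicit false
set_option linter.unusedSectionVars false

/-! The main estimate. -/

namespace Pool.Agent.Q85.HL

open MeasureTheory Set Complex
open Pool.Agent.TH277.HT
open scoped ENNReal NNReal InnerProductSpace

attribute [local irreducible] E1

/-- the interval `[-1/2, 1/2]` -/
def Ih : Set ℝ := Icc (-1 / 2) (1 / 2)

/-- the `L^p` norm on `[-1/2, 1/2]` -/
noncomputable def Nm {H : Type} [NormedAddCommGroup H] (p : ℝ) (a : ℝ → H) : ℝ≥0∞ :=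
  eLpNorm a (ENNReal.ofReal p) (volume.restrict Ih)

/-- the kernel on the unit square -/
noncomputable def kn {H : Type} [NormedAddCommGroup H] [InnerProductSpace ℂ H] (a b : ℝ → H)
    (x : ℝ × ℝ) : ℂ := (Ih ×ˢ Ih).indicator (fun z => ⟪a z.1, b z.2⟫_ℂ) x

lemma Ih_meas : MeasurableSet Ih := measurableSet_Icc

lemma Ih_sub : Ih ⊆ Icc (-1 : ℝ) 1 := fun _ h => ⟨by linarith [h.1], by linarith [h.2]⟩

lemma Ih_vol : volume Ih = 1 := by
  unfold Ih
  rw [Real.volume_Icc]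
  norm_num

lemma Nm_pow {H : Type} [NormedAddCommGroup H] {p : ℝ} (hp : 1 ≤ p) (a : ℝ → H) :
    ∫⁻ u in Icc (-1 : ℝ) 1, ‖Ih.indicator a u‖ₑ ^ p = Nm p a ^ p := by
  have hp0 : 0 < p := by linarith
  unfold Nm
  have h0 : ENNReal.ofReal p ≠ 0 := by simpa using hp0
  have h1 : ENNReal.ofReal p ≠ ⊤ := ENNReal.ofReal_ne_top
  rw [eLpNorm_eq_lintegral_rpow_enorm_toReal h0 h1, ENNReal.toReal_ofReal hp0.le,
    ← ENNReal.rpow_mul, one_div_mul_cancel hp0.ne', ENNReal.rpow_one]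
  rw [← lintegral_indicator measurableSet_Icc, ← lintegral_indicator Ih_meas]
  apply lintegral_congr
  intro u
  by_cases hu : u ∈ Ih
  · rw [indicator_of_mem (Ih_sub hu), indicator_of_mem hu, indicator_of_mem hu]
  · rw [indicator_of_notMem hu]
    by_cases hv : u ∈ Icc (-1 : ℝ) 1
    · rw [indicator_of_mem hv, indicator_of_notMem hu, enorm_zero, ENNReal.zero_rpow_of_pos hp0]
    · rw [indicator_of_notMem hv]

lemma Nm_one {H : Type} [NormedAddCommGroup H] {p : ℝ} (hp : 1 ≤ p) {a : ℝ → H}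
    (ha : StronglyMeasurable a) : ∫⁻ u, ‖Ih.indicator a u‖ₑ ≤ Nm p a := by
  have h1 : ∫⁻ u, ‖Ih.indicator a u‖ₑ = eLpNorm a 1 (volume.restrict Ih) := by
    rw [eLpNorm_one_eq_lintegral_enorm, ← lintegral_indicator Ih_meas]
    apply lintegral_congr
    intro u
    by_cases hu : u ∈ Ih
    · rw [indicator_of_mem hu, indicator_of_mem hu]
    · rw [indicator_of_notMem hu, indicator_of_notMem hu, enorm_zero]
  rw [h1]
  unfold Nm
  have : IsProbabilityMeasure (volume.restrict Ih) := ⟨by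
    rw [Measure.restrict_apply MeasurableSet.univ, univ_inter, Ih_vol]⟩
  apply eLpNorm_le_eLpNorm_of_exponent_le _ ha.aestronglyMeasurable
  rw [← ENNReal.ofReal_one]
  exact ENNReal.ofReal_le_ofReal hp

lemma ind_int {H : Type} [NormedAddCommGroup H] {p : ℝ} (hp : 1 ≤ p) {a : ℝ → H}
    (ha : StronglyMeasurable a) (hN : Nm p a ≠ ⊤) : Integrable (Ih.indicator a) := by
  refine ⟨(ha.indicator Ih_meas).aestronglyMeasurable, ?_⟩
  exact lt_of_le_of_lt (Nm_one hp ha) (lt_top_iff_ne_top.2 hN)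

lemma kn_eq {H : Type} [NormedAddCommGroup H] [InnerProductSpace ℂ H] (a b : ℝ → H) :
    kn a b = fun x : ℝ × ℝ => ⟪Ih.indicator a x.1, Ih.indicator b x.2⟫_ℂ := by
  ext x
  unfold kn
  by_cases h1 : x.1 ∈ Ih
  · by_cases h2 : x.2 ∈ Ih
    · rw [indicator_of_mem (show x ∈ Ih ×ˢ Ih from ⟨h1, h2⟩), indicator_of_mem h1,
        indicator_of_mem h2]
    · rw [indicator_of_notMem (fun h : x ∈ Ih ×ˢ Ih => h2 h.2), indicator_of_notMem h2,
        inner_zero_right]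
  · rw [indicator_of_notMem (fun h : x ∈ Ih ×ˢ Ih => h1 h.1), indicator_of_notMem h1,
      inner_zero_left]

/-- The main estimate. -/
theorem main (q p : ℝ) (hq : 3 < q) (hp : q / (q - 2) < p) : ∃ C : ℝ≥0, ∀ (H : Type)
    [NormedAddCommGroup H] [InnerProductSpace ℂ H] [CompleteSpace H] (a b : ℕ → ℝ → H)
    (c s : ℕ → ℝ) (f : ℝ × ℝ → ℂ), (∀ k, c k ^ 2 + s k ^ 2 = 1) →
    (∀ k, StronglyMeasurable (a k)) → (∀ k, StronglyMeasurable (b k)) →
    (∀ k, Nm p (a k) ≠ ⊤) → (∀ k, Nm p (b k) ≠ ⊤) →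
    (∀ᵐ x, f x = ∑' k, kn (a k) (b k) (rot (c k) (s k) x)) →
    eLpNorm (EP f) (ENNReal.ofReal q) volume ≤ C * ∑' k, Nm p (a k) * Nm p (b k) := by
  obtain ⟨C, hC⟩ := strong' q p hq hp
  have hq2 : 0 < q - 2 := by linarith
  have hq0 : 0 < q := by linarith
  have hp1 : 1 < p := by
    refine lt_trans ?_ hp
    rw [one_lt_div hq2]
    linarith
  have hp0 : 0 < p := by linarith
  set K : ℝ≥0∞ := ENNReal.ofReal (((2 * Real.pi)⁻¹)⁻¹ ^ 3) * C with hK
  have hKt : K ≠ ⊤ := ENNReal.mul_ne_top ENNReal.ofReal_ne_top ENNReal.coe_ne_top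
  have hK2 : K ^ (1 / q) ≠ ⊤ := ENNReal.rpow_ne_top_of_nonneg (by positivity) hKt
  refine ⟨(K ^ (1 / q)).toNNReal + 1, ?_⟩
  intro H _ _ _ a b c s f hcs ha hb hNa hNb hf
  set w : ℕ → ℝ≥0∞ := fun k => Nm p (a k) * Nm p (b k) with hw
  by_cases hwt : ∑' k, w k = ⊤
  · rw [hwt, ENNReal.mul_top]
    · exact le_top
    · have h1 : (1 : ℝ≥0∞) ≤ (((K ^ (1 / q)).toNNReal + 1 : ℝ≥0) : ℝ≥0∞) := by
        push_cast
        exact le_add_self
      exact (lt_of_lt_of_le zero_lt_one h1).ne'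
  have h0 : ENNReal.ofReal q ≠ 0 := by simpa using hq0
  have h1 : ENNReal.ofReal q ≠ ⊤ := ENNReal.ofReal_ne_top
  set g : ℕ → ℝ × ℝ → ℂ := fun k x => kn (a k) (b k) (rot (c k) (s k) x) with hg
  have ia : ∀ k, Integrable (Ih.indicator (a k)) := fun k => ind_int hp1.le (ha k) (hNa k)
  have ib : ∀ k, Integrable (Ih.indicator (b k)) := fun k => ind_int hp1.le (hb k) (hNb k)
  have hkn : ∀ k, Integrable (kn (a k) (b k)) := by
    intro k
    rw [kn_eq, Measure.volume_eq_prod]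
    refine Integrable.mono' ((ia k).norm.mul_prod (ib k).norm) ?_ ?_
    · exact ((ia k).aestronglyMeasurable.comp_fst).inner ((ib k).aestronglyMeasurable.comp_snd)
    · exact ae_of_all _ fun x => norm_inner_le_norm _ _
  have hkL : ∀ k, ∫⁻ x, ‖kn (a k) (b k) x‖ₑ ≤ w k := by
    intro k
    calc ∫⁻ x, ‖kn (a k) (b k) x‖ₑ
        ≤ ∫⁻ x : ℝ × ℝ, ‖Ih.indicator (a k) x.1‖ₑ * ‖Ih.indicator (b k) x.2‖ₑ := by
          apply lintegral_mono
          intro x
          rw [kn_eq]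
          simp only
          rw [← ofReal_norm, ← ofReal_norm, ← ofReal_norm, ← ENNReal.ofReal_mul (norm_nonneg _)]
          exact ENNReal.ofReal_le_ofReal (norm_inner_le_norm _ _)
      _ = (∫⁻ u, ‖Ih.indicator (a k) u‖ₑ) * ∫⁻ u, ‖Ih.indicator (b k) u‖ₑ := by
          rw [Measure.volume_eq_prod]
          exact lintegral_prod_mul (ia k).aestronglyMeasurable.enorm
            (ib k).aestronglyMeasurable.enorm
      _ ≤ w k := mul_le_mul' (Nm_one hp1.le (ha k)) (Nm_one hp1.le (hb k))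
  have emb : ∀ k, MeasurableEmbedding (rot (c k) (s k)) := fun k =>
    (rot_meas _ _).measurableEmbedding (rot_inj (hcs k))
  have hgi : ∀ k, Integrable (g k) := fun k =>
    ((rot_mp (hcs k)).integrable_comp_emb (emb k)).2 (hkn k)
  have hgL : ∀ k, ∫⁻ x, ‖g k x‖ₑ ≤ w k := by
    intro k
    refine le_trans (le_of_eq ?_) (hkL k)
    exact (rot_mp (hcs k)).lintegral_comp_emb (emb k) (fun x => ‖kn (a k) (b k) x‖ₑ)
  have z0 : ∀ (v : ℝ → H) (u : ℝ), u ∉ Icc (-1 : ℝ) 1 → Ih.indicator v u = 0 := fun v u hu =>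
    indicator_of_notMem (fun h => hu (Ih_sub h)) _
  have hMX : ∀ v : ℝ → H, StronglyMeasurable v → Nm p v ≠ ⊤ →
      (MX q (Ih.indicator v)) ^ (1 / 2 : ℝ) ≤ (C : ℝ≥0∞) ^ (1 / 2 : ℝ) * Nm p v ^ q := by
    intro v hv hN
    have e1 := Nm_pow hp1.le v
    have e2 := hC H (Ih.indicator v) (hv.indicator Ih_meas) (by
      rw [e1]
      exact ENNReal.rpow_ne_top_of_nonneg hp0.le hN)
    rw [e1, ← ENNReal.rpow_mul] at e2
    calc (MX q (Ih.indicator v)) ^ (1 / 2 : ℝ)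
        ≤ (C * Nm p v ^ (p * (2 * q / p))) ^ (1 / 2 : ℝ) :=
          ENNReal.rpow_le_rpow e2 (by norm_num)
      _ = _ := by
          rw [ENNReal.mul_rpow_of_nonneg _ _ (by norm_num), ← ENNReal.rpow_mul]
          congr 2
          field_simp
  have hgE : ∀ k, ∫⁻ y, ‖EP (g k) y‖ₑ ^ q ≤ K * w k ^ q := by
    intro k
    calc ∫⁻ y, ‖EP (g k) y‖ₑ ^ q = ∫⁻ y, ‖EP (kn (a k) (b k)) y‖ₑ ^ q :=
          EP_rot_lint (hcs k) (hkn k) q
      _ ≤ ∫⁻ y : (ℝ × ℝ) × ℝ, (‖E1 (Ih.indicator (a k)) ((2 * Real.pi)⁻¹ * y.1.1)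
          ((2 * Real.pi)⁻¹ * y.2)‖ₑ *
          ‖E1 (Ih.indicator (b k)) (-(2 * Real.pi)⁻¹ * y.1.2) (-(2 * Real.pi)⁻¹ * y.2)‖ₑ) ^ q := by
          apply lintegral_mono
          intro y
          simp only
          refine ENNReal.rpow_le_rpow ?_ hq0.le
          rw [kn_eq, EP_tens (ia k) (ib k) (z0 _) (z0 _)]
          rw [← ofReal_norm, ← ofReal_norm, ← ofReal_norm, ← ENNReal.ofReal_mul (norm_nonneg _)]
          exact ENNReal.ofReal_le_ofReal (norm_inner_le_norm _ _)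
      _ ≤ ENNReal.ofReal (((2 * Real.pi)⁻¹)⁻¹ ^ 3) * ((MX q (Ih.indicator (a k))) ^ (1 / 2 : ℝ) *
          (MX q (Ih.indicator (b k))) ^ (1 / 2 : ℝ)) :=
          prod_bd q hq0 (ia k).integrableOn (ib k).integrableOn _ (by positivity)
      _ ≤ ENNReal.ofReal (((2 * Real.pi)⁻¹)⁻¹ ^ 3) *
          (((C : ℝ≥0∞) ^ (1 / 2 : ℝ) * Nm p (a k) ^ q) *
            ((C : ℝ≥0∞) ^ (1 / 2 : ℝ) * Nm p (b k) ^ q)) := by
          gcongr
          · exact hMX _ (ha k) (hNa k)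
          · exact hMX _ (hb k) (hNb k)
      _ = ENNReal.ofReal (((2 * Real.pi)⁻¹)⁻¹ ^ 3) *
          ((C : ℝ≥0∞) ^ (1 / 2 : ℝ) * (C : ℝ≥0∞) ^ (1 / 2 : ℝ)) * (w k) ^ q := by
          rw [hw]
          simp only
          rw [ENNReal.mul_rpow_of_nonneg _ _ hq0.le]
          ring
      _ = K * w k ^ q := by
          rw [← ENNReal.rpow_add_of_nonneg _ _ (by norm_num) (by norm_num)]
          norm_num
          rw [hK]
          norm_num
  have hfin := sum_bd q (by linarith) K w g hgi hgL hgE hwt f hf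
  rw [eLpNorm_eq_lintegral_rpow_enorm_toReal h0 h1, ENNReal.toReal_ofReal hq0.le]
  calc (∫⁻ y, ‖EP f y‖ₑ ^ q) ^ (1 / q) ≤ (K * (∑' k, w k) ^ q) ^ (1 / q) :=
        ENNReal.rpow_le_rpow hfin (by positivity)
    _ = K ^ (1 / q) * ∑' k, w k := by
        rw [ENNReal.mul_rpow_of_nonneg _ _ (by positivity), ← ENNReal.rpow_mul,
          mul_one_div_cancel hq0.ne', ENNReal.rpow_one]
    _ ≤ _ := by
        gcongr
        push_cast
        rw [ENNReal.coe_toNNReal hK2]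
        exact le_self_add

end Pool.Agent.Q85.HL
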